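import Pool.Agent.Lib.MP_21e00f_co.Limit

/-!
MP_21e00f_co: asymptotics of the limit constants.
-/

set_option autoImplicit false

open Finset Filter Topology

namespace Pool.Agent.Lib.MP_21e00f_co

/-- `cn n = ∑_{k=1}^n C(n,k) / k` -/
lemma cn_eq (n : ℕ) : cn n = ∑ k ∈ Icc 1 n, (n.choose k : ℝ) / k := by
  classical
  unfold cn
  have h1 : ∑ I ∈ (univ : Finset (Finset (Fin n))).erase ∅, 1 / (I.card : ℝ) =
      ∑ k ∈ Icc 1 n, ∑ I ∈ ((univ : Finset (Finset (Fin n))).erase ∅).filter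
        (fun I => I.card = k), 1 / (I.card : ℝ) := by
    rw [sum_fiberwise_of_maps_to]
    intro I hI
    rw [mem_erase] at hI
    have h2 := card_pos.mpr (nonempty_iff_ne_empty.mpr hI.1)
    have h3 := card_le_univ I
    rw [Fintype.card_fin] at h3
    rw [mem_Icc]
    exact ⟨h2, h3⟩
  rw [h1]
  apply sum_congr rfl
  intro k hk
  rw [mem_Icc] at hk
  have h2 : ((univ : Finset (Finset (Fin n))).erase ∅).filter (fun I => I.card = k) =
      powersetCard k univ := by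
    ext I
    rw [mem_filter, mem_erase, mem_powersetCard]
    constructor
    · rintro ⟨_, h⟩
      exact ⟨subset_univ _, h⟩
    · rintro ⟨_, h⟩
      refine ⟨⟨?_, mem_univ _⟩, h⟩
      rintro rfl
      rw [card_empty] at h
      omega
  rw [h2]
  have h3 : ∀ I ∈ powersetCard k (univ : Finset (Fin n)), 1 / (I.card : ℝ) = 1 / (k : ℝ) := by
    intro I hI
    rw [(mem_powersetCard.mp hI).2]
  rw [sum_congr rfl h3, sum_const, card_powersetCard, card_univ, Fintype.card_fin, nsmul_eq_mul]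
  ring

lemma choose_succ_eq (n k : ℕ) : (n.choose k : ℝ) / (k + 1) = ((n + 1).choose (k + 1) : ℝ) / (n + 1) := by
  have h1 := Nat.add_one_mul_choose_eq n k
  have h2 : ((n : ℝ) + 1) * (n.choose k) = ((n + 1).choose (k + 1)) * ((k : ℝ) + 1) := by
    exact_mod_cast h1
  rw [div_eq_div_iff (by positivity) (by positivity)]
  linarith

lemma sum_choose_le (n : ℕ) (s : Finset ℕ) : ∑ k ∈ s, (n.choose k : ℝ) ≤ 2 ^ n := by
  have h1 : ∑ k ∈ s, (n.choose k : ℝ) ≤ ∑ k ∈ range (n + 1), (n.choose k : ℝ) := by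
    have h2 : ∑ k ∈ s, (n.choose k : ℝ) = ∑ k ∈ s.filter (fun k => k ∈ range (n + 1)), (n.choose k : ℝ) := by
      rw [sum_filter]
      apply sum_congr rfl
      intro k _
      by_cases hk : k ∈ range (n + 1)
      · rw [if_pos hk]
      · rw [if_neg hk]
        rw [mem_range] at hk
        rw [Nat.choose_eq_zero_of_lt (by omega)]
        simp
    rw [h2]
    apply sum_le_sum_of_subset_of_nonneg
    · intro k hk
      exact (mem_filter.mp hk).2
    · intro k _ _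
      positivity
  refine h1.trans ?_
  have h2 := Nat.sum_range_choose n
  exact_mod_cast h2.le

lemma sum_map_le (n a : ℕ) (s : Finset ℕ) :
    ∑ k ∈ s, ((n).choose (k + a) : ℝ) ≤ 2 ^ n := by
  have h1 : ∑ k ∈ s, ((n).choose (k + a) : ℝ) = ∑ k ∈ s.map (addRightEmbedding a), (n.choose k : ℝ) := by
    rw [sum_map]
    rfl
  rw [h1]
  exact sum_choose_le n _

lemma cn_le (n : ℕ) : cn n ≤ 2 ^ (n + 1) / (n + 1) * (1 + 6 / (n + 2)) := by
  rw [cn_eq]
  have h1 : ∀ k ∈ Icc 1 n, (n.choose k : ℝ) / k ≤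
      ((n + 1).choose (k + 1) : ℝ) / (n + 1) +
      3 * (((n + 2).choose (k + 2) : ℝ) / ((n + 1) * (n + 2))) := by
    intro k hk
    rw [mem_Icc] at hk
    have hk1 : (1 : ℝ) ≤ k := by exact_mod_cast hk.1
    have h2 := choose_succ_eq n k
    have h3 := choose_succ_eq (n + 1) (k + 1)
    push_cast at h3
    have h4 : ((n + 2).choose (k + 2) : ℝ) / ((n + 1) * (n + 2)) =
        (n.choose k : ℝ) / ((k + 1) * (k + 2)) := by
      have h5 : ((n + 2).choose (k + 2) : ℝ) / ((n + 1) * (n + 2)) =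
          (((n + 1 + 1).choose (k + 1 + 1) : ℝ) / (n + 1 + 1)) / (n + 1) := by
        rw [div_div]
        congr 1
        ring
      rw [h5, ← h3, div_div, mul_comm, ← div_div, ← h2, div_div]
      congr 1
      ring
    rw [h4, ← h2]
    have hc : (0 : ℝ) ≤ n.choose k := by positivity
    have h6 : (n.choose k : ℝ) / k = (n.choose k : ℝ) * (1 / k) := by ring
    have h7 : (n.choose k : ℝ) / (k + 1) + 3 * ((n.choose k : ℝ) / ((k + 1) * (k + 2))) =
        (n.choose k : ℝ) * (1 / (k + 1) + 3 / ((k + 1) * (k + 2))) := by ring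
    rw [h6, h7]
    apply mul_le_mul_of_nonneg_left _ hc
    rw [div_add_div _ _ (by positivity) (by positivity), div_le_div_iff₀ (by positivity)
      (by positivity)]
    nlinarith
  refine (sum_le_sum h1).trans ?_
  rw [sum_add_distrib, ← sum_div, ← mul_sum, ← sum_div]
  have h2 := sum_map_le (n + 1) 1 (Icc 1 n)
  have h3 := sum_map_le (n + 2) 2 (Icc 1 n)
  have h4 : (∑ k ∈ Icc 1 n, ((n + 1).choose (k + 1) : ℝ)) / (n + 1) ≤ 2 ^ (n + 1) / (n + 1) :=
    div_le_div_of_nonneg_right h2 (by positivity)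
  have h5 : (∑ k ∈ Icc 1 n, ((n + 2).choose (k + 2) : ℝ)) / ((n + 1) * (n + 2)) ≤
      2 ^ (n + 2) / ((n + 1) * (n + 2)) :=
    div_le_div_of_nonneg_right h3 (by positivity)
  have h6 : (2 : ℝ) ^ (n + 1) / (n + 1) * (1 + 6 / (n + 2)) =
      2 ^ (n + 1) / (n + 1) + 3 * (2 ^ (n + 2) / ((n + 1) * (n + 2))) := by
    rw [pow_succ (2 : ℝ) (n + 1)]
    field_simp
    ring
  rw [h6]
  linarith

/-- second moment of the binomial distribution -/
lemma second_moment (n : ℕ) :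
    ∑ k ∈ range (n + 1), (n.choose k : ℝ) * ((n : ℝ) - 2 * (k : ℝ)) ^ 2 = (n : ℝ) * 2 ^ n := by
  induction n with
  | zero => simp
  | succ n ih =>
    have h1 : ∑ k ∈ range (n + 1 + 1), ((n + 1).choose k : ℝ) * (((n + 1 : ℕ) : ℝ) - 2 * k) ^ 2 =
        ∑ k ∈ range (n + 1), (n.choose k : ℝ) * ((n : ℝ) + 1 - 2 * k) ^ 2 +
        ∑ k ∈ range (n + 1), (n.choose k : ℝ) * ((n : ℝ) + 1 - 2 * (k + 1)) ^ 2 := by
      rw [sum_range_succ']
      have h2 : ∀ k ∈ range (n + 1), ((n + 1).choose (k + 1) : ℝ) *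
          (((n + 1 : ℕ) : ℝ) - 2 * ((k + 1 : ℕ) : ℝ)) ^ 2 =
          (n.choose k : ℝ) * ((n : ℝ) + 1 - 2 * (k + 1)) ^ 2 +
          (n.choose (k + 1) : ℝ) * ((n : ℝ) + 1 - 2 * ((k + 1 : ℕ) : ℝ)) ^ 2 := by
        intro k _
        rw [Nat.choose_succ_succ]
        push_cast
        ring
      rw [sum_congr rfl h2, sum_add_distrib]
      have h3 : ∑ k ∈ range (n + 1), (n.choose k : ℝ) * ((n : ℝ) + 1 - 2 * k) ^ 2 =
          ∑ k ∈ range (n + 1), (n.choose (k + 1) : ℝ) * ((n : ℝ) + 1 - 2 * ((k + 1 : ℕ) : ℝ)) ^ 2 +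
          (n.choose 0 : ℝ) * ((n : ℝ) + 1 - 2 * ((0 : ℕ) : ℝ)) ^ 2 := by
        have e1 := sum_range_succ' (fun k => (n.choose k : ℝ) * ((n : ℝ) + 1 - 2 * (k : ℝ)) ^ 2) (n + 1)
        have e2 := sum_range_succ (fun k => (n.choose k : ℝ) * ((n : ℝ) + 1 - 2 * (k : ℝ)) ^ 2) (n + 1)
        have e3 : (n.choose (n + 1) : ℝ) = 0 := by rw [Nat.choose_succ_self]; simp
        rw [e1] at e2
        rw [e3, zero_mul, add_zero] at e2
        exact e2.symm
      rw [h3]
      push_cast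
      simp
      ring
    rw [h1, ← sum_add_distrib]
    have h4 : ∀ k ∈ range (n + 1), (n.choose k : ℝ) * ((n : ℝ) + 1 - 2 * k) ^ 2 +
        (n.choose k : ℝ) * ((n : ℝ) + 1 - 2 * (k + 1)) ^ 2 =
        2 * ((n.choose k : ℝ) * (n - 2 * k) ^ 2) + 2 * (n.choose k : ℝ) := by
      intro k _
      ring
    rw [sum_congr rfl h4, sum_add_distrib, ← mul_sum, ← mul_sum, ih]
    have h5 : ∑ k ∈ range (n + 1), (n.choose k : ℝ) = 2 ^ n := by
      have := Nat.sum_range_choose n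
      exact_mod_cast this
    rw [h5]
    push_cast
    ring

/-- Chebyshev bound for small subsets -/
lemma small_sum {n k : ℕ} (hk : k ≤ n) {ε : ℝ} (hε : 0 < ε) (hn : 1 ≤ n)
    (hkn : (1 / 2 + ε) * n ≤ k + 1) :
    (2 : ℝ) ^ n - 1 - 2 ^ n / (4 * ε ^ 2 * n) ≤ ∑ i ∈ Icc 1 k, (n.choose i : ℝ) := by
  have hnr : (0 : ℝ) < n := by exact_mod_cast hn
  have h1 : ∑ i ∈ range (n + 1), (n.choose i : ℝ) = 2 ^ n := by
    have := Nat.sum_range_choose n
    exact_mod_cast this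
  have h2 : range (n + 1) = insert 0 (Icc 1 k ∪ Icc (k + 1) n) := by
    ext i
    simp only [mem_range, mem_insert, mem_union, mem_Icc]
    omega
  have h3 : (0 : ℕ) ∉ Icc 1 k ∪ Icc (k + 1) n := by
    simp only [mem_union, mem_Icc]
    omega
  have h4 : Disjoint (Icc 1 k) (Icc (k + 1) n) := by
    rw [disjoint_left]
    intro i hi hi2
    rw [mem_Icc] at hi hi2
    omega
  rw [h2, sum_insert h3, sum_union h4] at h1
  have h5 : ∑ i ∈ Icc (k + 1) n, (n.choose i : ℝ) ≤ 2 ^ n / (4 * ε ^ 2 * n) := by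
    rw [le_div_iff₀ (by positivity)]
    have h6 : (∑ i ∈ Icc (k + 1) n, (n.choose i : ℝ)) * ((2 * ε * n) ^ 2) ≤
        ∑ i ∈ range (n + 1), (n.choose i : ℝ) * (n - 2 * i) ^ 2 := by
      rw [sum_mul]
      have h7 : ∀ i ∈ Icc (k + 1) n, (n.choose i : ℝ) * ((2 * ε * n) ^ 2) ≤
          (n.choose i : ℝ) * (n - 2 * i) ^ 2 := by
        intro i hi
        rw [mem_Icc] at hi
        apply mul_le_mul_of_nonneg_left _ (by positivity)
        have h8 : (k : ℝ) + 1 ≤ i := by exact_mod_cast hi.1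
        have h9 : 2 * ε * n ≤ 2 * i - n := by nlinarith
        have h10 : (n - 2 * (i : ℝ)) ^ 2 = (2 * i - n) ^ 2 := by ring
        rw [h10]
        apply pow_le_pow_left₀ (by positivity) h9
      refine (sum_le_sum h7).trans ?_
      apply sum_le_sum_of_subset_of_nonneg
      · intro i hi
        rw [mem_Icc] at hi
        rw [mem_range]
        omega
      · intro i _ _
        positivity
    rw [second_moment] at h6
    have h8 : (∑ i ∈ Icc (k + 1) n, (n.choose i : ℝ)) * (4 * ε ^ 2 * n) * n ≤ 2 ^ n * n := by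
      have h9 : (∑ i ∈ Icc (k + 1) n, (n.choose i : ℝ)) * ((2 * ε * n) ^ 2) =
        (∑ i ∈ Icc (k + 1) n, (n.choose i : ℝ)) * (4 * ε ^ 2 * n) * n := by ring
      rw [← h9]
      linarith
    exact le_of_mul_le_mul_right h8 hnr
  simp only [Nat.choose_zero_right, Nat.cast_one] at h1
  linarith

/-- the limits are at least `(1/k) ∑_{i ≤ k} C(n,i)` -/
lemma lim_ge {n : ℕ} (hn : 1 ≤ n) {lam : ℝ}
    (h : Tendsto (fun t : ℕ => (s t n : ℝ) / t) atTop (𝓝 lam)) (k : ℕ) :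
    ∑ i ∈ Icc 1 k, (n.choose i : ℝ) ≤ k * lam := by
  have h1 : Tendsto (fun t : ℕ => (k : ℝ) * ((s t n : ℝ) / t)) atTop (𝓝 (k * lam)) :=
    h.const_mul _
  apply ge_of_tendsto h1
  filter_upwards [eventually_ge_atTop 1] with t ht
  have h2 := lower ht hn k
  have htr : (0 : ℝ) < t := by exact_mod_cast ht
  have h3 : (t : ℝ) * ∑ i ∈ Icc 1 k, (n.choose i : ℝ) ≤ k * s t n := by exact_mod_cast h2
  rw [← mul_div_assoc, le_div_iff₀ htr]
  linarith

lemma lim_le {n : ℕ} (hn : 1 ≤ n) {lam : ℝ}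
    (h : Tendsto (fun t : ℕ => (s t n : ℝ) / t) atTop (𝓝 lam)) : lam ≤ cn n := by
  have h0 : ∀ η : ℝ, 0 < η → η < 1 → lam ≤ cn n / (1 - η) := by
    intro η hη hη1
    obtain ⟨C, hC⟩ := upper hn hη hη1
    have h1 : Tendsto (fun t : ℕ => cn n / (1 - η) + C / t) atTop
        (𝓝 (cn n / (1 - η) + 0)) :=
      tendsto_const_nhds.add (tendsto_const_div_atTop_nhds_zero_nat _)
    rw [add_zero] at h1
    apply le_of_tendsto_of_tendsto h h1
    filter_upwards [eventually_ge_atTop 1] with t ht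
    have htr : (0 : ℝ) < t := by exact_mod_cast ht
    rw [div_le_iff₀ htr, add_mul, div_mul_cancel₀ _ htr.ne']
    exact hC t ht
  have h1 : Tendsto (fun η : ℝ => cn n / (1 - η)) (𝓝[>] 0) (𝓝 (cn n / (1 - 0))) := by
    apply Tendsto.mono_left _ nhdsWithin_le_nhds
    apply ContinuousAt.tendsto
    apply ContinuousAt.div continuousAt_const (by fun_prop) (by norm_num)
  rw [sub_zero, div_one] at h1
  apply ge_of_tendsto h1
  have h2 : Set.Ioo (0 : ℝ) 1 ∈ 𝓝[>] (0 : ℝ) := Ioo_mem_nhdsGT one_pos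
  filter_upwards [h2] with η hη
  exact h0 η hη.1 hη.2

/-- the limit constants are asymptotically `2^(n+1) / n` -/
theorem asym (lam : ℕ → ℝ)
    (h : ∀ n, 1 ≤ n → Tendsto (fun t : ℕ => (s t n : ℝ) / t) atTop (𝓝 (lam n))) :
    Tendsto (fun n : ℕ => lam n * n / 2 ^ (n + 1)) atTop (𝓝 1) := by
  rw [Metric.tendsto_atTop]
  intro δ hδ
  -- parameters
  set ε : ℝ := min (δ / 8) (1 / 4) with hε
  have hε0 : 0 < ε := lt_min (by linarith) (by norm_num)
  have hε1 : ε ≤ 1 / 4 := min_le_right _ _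
  have hεδ : ε ≤ δ / 8 := min_le_left _ _
  obtain ⟨N1, hN1⟩ := exists_nat_gt (8 / δ + 2 / ε + 1 / (ε ^ 3) + 8)
  have hp1 : 0 < 8 / δ := by positivity
  have hp2 : 0 < 2 / ε := by positivity
  have hp3 : 0 < 1 / (ε ^ 3) := by positivity
  refine ⟨N1, ?_⟩
  intro n hn
  have hnN : (N1 : ℝ) ≤ n := by exact_mod_cast hn
  have hn8 : (8 : ℝ) < n := by linarith
  have hn1 : 1 ≤ n := by
    have : (1 : ℝ) ≤ n := by linarith
    exact_mod_cast this
  have hnr : (0 : ℝ) < n := by linarith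
  have hpow : (0 : ℝ) < 2 ^ (n + 1) := by positivity
  have hup : lam n * n / 2 ^ (n + 1) < 1 + δ := by
    have h1 := (lim_le hn1 (h n hn1)).trans (cn_le n)
    have h2 : lam n * n / 2 ^ (n + 1) ≤ 1 + 6 / (n + 2) := by
      rw [div_le_iff₀ hpow]
      have h3 : lam n * n ≤ 2 ^ (n + 1) / (n + 1) * (1 + 6 / (n + 2)) * n :=
        mul_le_mul_of_nonneg_right h1 hnr.le
      have h4 : (2 : ℝ) ^ (n + 1) / (n + 1) * (1 + 6 / (n + 2)) * n ≤
          (1 + 6 / (n + 2)) * 2 ^ (n + 1) := by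
        have h5 : (2 : ℝ) ^ (n + 1) / (n + 1) * (1 + 6 / (n + 2)) * n =
            (1 + 6 / (n + 2)) * 2 ^ (n + 1) * (n / (n + 1)) := by
          ring
        rw [h5]
        have h6 : (n : ℝ) / (n + 1) ≤ 1 := by
          rw [div_le_one (by positivity)]
          linarith
        have h7 : (0 : ℝ) ≤ (1 + 6 / (n + 2)) * 2 ^ (n + 1) := by positivity
        nlinarith
      linarith
    have h3 : (6 : ℝ) / (n + 2) < δ := by
      rw [div_lt_iff₀ (by positivity)]
      have h4 : 8 / δ < n := by linarith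
      rw [div_lt_iff₀ hδ] at h4
      nlinarith
    linarith
  have hlo : 1 - δ < lam n * n / 2 ^ (n + 1) := by
    set k := ⌊(1 / 2 + ε) * (n : ℝ)⌋₊ with hk
    have hkle : (k : ℝ) ≤ (1 / 2 + ε) * n := Nat.floor_le (by positivity)
    have hklt : (1 / 2 + ε) * (n : ℝ) < k + 1 := Nat.lt_floor_add_one _
    have hkn : k ≤ n := by
      have h1 : (k : ℝ) ≤ n := by nlinarith
      exact_mod_cast h1
    have hk0 : (0 : ℝ) < k := by nlinarith
    have h1 := small_sum hkn hε0 hn1 hklt.le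
    have h2 := lim_ge hn1 (h n hn1) k
    have h3 : (2 : ℝ) ^ n * (1 - 2 * ε) ≤ 2 ^ n - 1 - 2 ^ n / (4 * ε ^ 2 * n) := by
      have h4 : 2 ^ n / (4 * ε ^ 2 * n) ≤ 2 ^ n * ε := by
        rw [div_le_iff₀ (by positivity)]
        have h5 : 1 ≤ ε * (4 * ε ^ 2 * n) := by
          have h6 : 1 / (ε ^ 3) < n := by linarith
          rw [div_lt_iff₀ (by positivity)] at h6
          nlinarith
        have h7 : (0 : ℝ) < 2 ^ n := by positivity
        nlinarith
      have h5 : (1 : ℝ) ≤ 2 ^ n * ε := by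
        have h6 : 2 / ε < n := by linarith
        rw [div_lt_iff₀ hε0] at h6
        have h7 : (n : ℝ) ≤ 2 ^ n := by
          exact_mod_cast (Nat.lt_two_pow_self).le
        nlinarith
      nlinarith
    have h4 : (2 : ℝ) ^ n * (1 - 2 * ε) ≤ (1 / 2 + ε) * n * lam n := by
      have h5 : 0 ≤ lam n := by
        apply ge_of_tendsto' (h n hn1)
        intro t
        positivity
      have h6 : (k : ℝ) * lam n ≤ (1 / 2 + ε) * n * lam n :=
        mul_le_mul_of_nonneg_right hkle h5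
      linarith
    rw [lt_div_iff₀ hpow]
    have h5 : (2 : ℝ) ^ (n + 1) = 2 * 2 ^ n := by rw [pow_succ]; ring
    rw [h5]
    have h6 : (0 : ℝ) < 2 ^ n := by positivity
    -- (1 - δ) * 2 * 2^n * (1/2 + ε) < (1 - 2 ε) 2^n
    have h7 : (1 - δ) * (2 * 2 ^ n) * (1 / 2 + ε) < 2 ^ n * (1 - 2 * ε) := by
      have h8 : (1 - δ) * (2 * 2 ^ n) * (1 / 2 + ε) = 2 ^ n * ((1 - δ) * (1 + 2 * ε)) := by ring
      rw [h8]
      apply mul_lt_mul_of_pos_left _ h6
      nlinarith
    have h8 : (1 / 2 + ε) * ((1 - δ) * (2 * 2 ^ n)) < (1 / 2 + ε) * (lam n * n) := by nlinarith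
    exact lt_of_mul_lt_mul_left h8 (by linarith)
  rw [Real.dist_eq, abs_lt]
  constructor <;> linarith

end Pool.Agent.Lib.MP_21e00f_co
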