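import Pool.Agent.Lib.MP_21e00f_co.Nibble

/-!
MP_21e00f_co: one bite of the weighted nibble (second moment computations).
-/

set_option autoImplicit false
set_option linter.unusedSectionVars false

open Finset

namespace Pool.Agent.Lib.MP_21e00f_co

variable {ι V : Type*} [DecidableEq ι] [DecidableEq V]
variable {e : ι → Finset V} {E : Finset ι} {w : ι → ℝ} {K : ℕ} {δ α : ℝ}

/-- the new weights -/
noncomputable def nw (e : ι → Finset V) (E : Finset ι) (w : ι → ℝ) (α : ℝ) (i : ι) : ℝ :=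
  w i * (1 - α) / Q e E (fun i => α * w i) (e i)

/-- indicator of the event that no chosen edge meets `T` -/
noncomputable def ind (e : ι → Finset V) (E : Finset ι) (T : Finset V) (S : Finset ι) : ℝ :=
  if Disjoint S (hit e E T) then 1 else 0

/-- the new weight of the surviving edges through `v` -/
noncomputable def X (e : ι → Finset V) (E : Finset ι) (w : ι → ℝ) (α : ℝ) (v : V)
    (S : Finset ι) : ℝ :=
  ∑ i ∈ E with v ∈ e i, nw e E w α i * ind e E (e i) S

lemma ex_ind (p : ι → ℝ) (T : Finset V) : ex E p (ind e E T) = Q e E p T :=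
  ex_avoid E p (hit e E T) (hit_subset T)

lemma ind_mul (A B : Finset V) (S : Finset ι) :
    ind e E A S * ind e E B S = ind e E (A ∪ B) S := by
  unfold ind
  by_cases h1 : Disjoint S (hit e E A) <;> by_cases h2 : Disjoint S (hit e E B) <;>
    simp [h1, h2, hit_union, disjoint_union_right]

lemma ind_nonneg (A : Finset V) (S : Finset ι) : 0 ≤ ind e E A S := by
  unfold ind
  split_ifs <;> norm_num

lemma Q_pos (h : Good e E w K δ) (hα : 0 ≤ α) (hα1 : α ≤ 1 / 2) (T : Finset V) :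
    0 < Q e E (fun i => α * w i) T :=
  lt_of_lt_of_le (pow_pos (by linarith) _) (Q_ge_pow h hα (by linarith) T)

lemma nw_mul_Q (h : Good e E w K δ) (hα : 0 ≤ α) (hα1 : α ≤ 1 / 2) (i : ι) :
    nw e E w α i * Q e E (fun i => α * w i) (e i) = w i * (1 - α) := by
  unfold nw
  exact div_mul_cancel₀ _ (Q_pos h hα hα1 _).ne'

lemma nw_nonneg (h : Good e E w K δ) (hα : 0 ≤ α) (hα1 : α ≤ 1 / 2) {i : ι} (hi : i ∈ E) :
    0 ≤ nw e E w α i := by
  unfold nw
  have h1 := h.nonneg i hi
  have h2 := (Q_pos h hα hα1 (e i)).le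
  have h3 : 0 ≤ 1 - α := by linarith
  positivity

lemma nw_le (h : Good e E w K δ) (hα : 0 ≤ α) (hα1 : α ≤ 1 / 2) {i : ι} (hi : i ∈ E) :
    nw e E w α i ≤ w i * 2 ^ K := by
  unfold nw
  have h1 := h.nonneg i hi
  have h2 := Q_pos h hα hα1 (e i)
  have h3 := Q_ge_half h hα hα1 hi
  rw [div_le_iff₀ h2]
  have h4 : (1 : ℝ) ≤ 2 ^ K * Q e E (fun i => α * w i) (e i) := by
    have h5 : (2 : ℝ) ^ K * (1 / 2) ^ K = 1 := by
      rw [← mul_pow]
      norm_num
    rw [← h5]
    exact mul_le_mul_of_nonneg_left h3 (by positivity)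
  have h6 : w i * (1 - α) ≤ w i * 1 := mul_le_mul_of_nonneg_left (by linarith) h1
  rw [mul_assoc]
  refine h6.trans (mul_le_mul_of_nonneg_left h4 h1)

lemma ex_X (h : Good e E w K δ) (hα : 0 ≤ α) (hα1 : α ≤ 1 / 2) (v : V) :
    ex E (fun i => α * w i) (X e E w α v) = (1 - α) * ∑ i ∈ E with v ∈ e i, w i := by
  have h1 : ex E (fun i => α * w i) (X e E w α v)
      = ∑ i ∈ E with v ∈ e i, ex E (fun i => α * w i)
        (fun S => nw e E w α i * ind e E (e i) S) :=
    ex_sum E _ _ (fun i S => nw e E w α i * ind e E (e i) S)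
  rw [h1, mul_sum]
  apply sum_congr rfl
  intro i _
  rw [ex_mul, ex_ind, nw_mul_Q h hα hα1]
  ring

lemma ex_XX (v : V) :
    ex E (fun i => α * w i) (fun S => X e E w α v S ^ 2) =
      ∑ i ∈ E with v ∈ e i, ∑ j ∈ E with v ∈ e j,
        nw e E w α i * nw e E w α j * Q e E (fun i => α * w i) (e i ∪ e j) := by
  have h1 : ex E (fun i => α * w i) (fun S => X e E w α v S ^ 2)
      = ex E (fun i => α * w i) (fun S => ∑ i ∈ E with v ∈ e i, ∑ j ∈ E with v ∈ e j,
        (nw e E w α i * nw e E w α j) * ind e E (e i ∪ e j) S) := by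
    apply ex_congr
    intro S _
    unfold X
    rw [sq, sum_mul_sum]
    apply sum_congr rfl
    intro i _
    apply sum_congr rfl
    intro j _
    rw [← ind_mul]
    ring
  rw [h1, ex_sum]
  apply sum_congr rfl
  intro i _
  rw [ex_sum]
  apply sum_congr rfl
  intro j _
  rw [ex_mul, ex_ind]

lemma Q_anti (h : Good e E w K δ) (hα : 0 ≤ α) (hα1 : α ≤ 1) (A B : Finset V) :
    Q e E (fun i => α * w i) (A ∪ B) ≤ Q e E (fun i => α * w i) A := by
  unfold Q
  rw [hit_union, ← union_sdiff_self_eq_union, prod_union disjoint_sdiff]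
  apply mul_le_of_le_one_right (Q_nonneg h hα hα1 A)
  exact prod_le_one' (fun i hi => pn h hα i (hit_subset B (mem_sdiff.mp hi).1))
    (fun i hi => pl h hα hα1 i (hit_subset B (mem_sdiff.mp hi).1))

/-- the exceptional pairs -/
def Bp (e : ι → Finset V) (v : V) (i j : ι) : Prop := i = j ∨ ∃ u ∈ e i, u ≠ v ∧ u ∈ e j

open Classical in
lemma pair_le (h : Good e E w K δ) (hα : 0 ≤ α) (hα1 : α ≤ 1 / 2)
    (hδ : α * K ^ 2 * δ ≤ 1 / 2) {i j : ι} (hi : i ∈ E) (hj : j ∈ E) {v : V}
    (hvi : v ∈ e i) (hvj : v ∈ e j) :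
    nw e E w α i * nw e E w α j * Q e E (fun i => α * w i) (e i ∪ e j) ≤
      (1 - α) ^ 2 / Q e E (fun i => α * w i) {v} * (1 + 2 * (α * K ^ 2 * δ)) * (w i * w j)
      + 2 ^ K * (w i * (if Bp e v i j then w j else 0)) := by
  have hwi := h.nonneg i hi
  have hwj := h.nonneg j hj
  have hδ0 : 0 ≤ δ := le_trans (h.nonneg i hi) (h.small i hi)
  have hq := Q_pos h hα hα1 {v}
  have hQi := Q_pos h hα hα1 (e i)
  have hQj := Q_pos h hα hα1 (e j)
  have hx : 0 ≤ α * K ^ 2 * δ := by positivity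
  by_cases hB : Bp e v i j
  · rw [if_pos hB]
    have h1 : 0 ≤ (1 - α) ^ 2 / Q e E (fun i => α * w i) {v} * (1 + 2 * (α * K ^ 2 * δ)) *
        (w i * w j) := by positivity
    have h2 : nw e E w α i * nw e E w α j * Q e E (fun i => α * w i) (e i ∪ e j) ≤
        2 ^ K * (w i * w j) := by
      calc nw e E w α i * nw e E w α j * Q e E (fun i => α * w i) (e i ∪ e j)
          ≤ nw e E w α i * nw e E w α j * Q e E (fun i => α * w i) (e i) := by
            apply mul_le_mul_of_nonneg_left (Q_anti h hα (by linarith) _ _)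
            exact mul_nonneg (nw_nonneg h hα hα1 hi) (nw_nonneg h hα hα1 hj)
        _ = (w i * (1 - α)) * nw e E w α j := by
            rw [← nw_mul_Q h hα hα1 i]
            ring
        _ ≤ w i * (w j * 2 ^ K) := by
            apply mul_le_mul _ (nw_le h hα hα1 hj) (nw_nonneg h hα hα1 hj) hwi
            nlinarith
        _ = _ := by ring
    linarith
  · rw [if_neg hB, mul_zero, mul_zero, add_zero]
    have hij : ∀ u, u ≠ v → ¬ (u ∈ e i ∧ u ∈ e j) := by
      intro u hu hu2
      exact hB (Or.inr ⟨u, hu2.1, hu, hu2.2⟩)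
    have h1 := Q_pair h hα hα1 hδ hi hj hvi hvj hij
    unfold nw
    set Qi := Q e E (fun i => α * w i) (e i)
    set Qj := Q e E (fun i => α * w i) (e j)
    set Qij := Q e E (fun i => α * w i) (e i ∪ e j)
    set q := Q e E (fun i => α * w i) {v}
    have h2 : w i * (1 - α) / Qi * (w j * (1 - α) / Qj) * Qij
        = ((1 - α) ^ 2 * (w i * w j)) * (Qij / (Qi * Qj)) := by
      field_simp
    have h3 : (1 - α) ^ 2 / q * (1 + 2 * (α * K ^ 2 * δ)) * (w i * w j)
        = ((1 - α) ^ 2 * (w i * w j)) * ((1 + 2 * (α * K ^ 2 * δ)) / q) := by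
      field_simp
    rw [h2, h3]
    apply mul_le_mul_of_nonneg_left
    · rw [div_le_div_iff₀ (mul_pos hQi hQj) hq]
      exact h1
    · positivity

open Classical in
lemma sum_Bp (h : Good e E w K δ) {i : ι} (hi : i ∈ E) (v : V) :
    ∑ j ∈ E with v ∈ e j, (if Bp e v i j then w j else 0) ≤ (K + 1) * δ := by
  have hδ0 : 0 ≤ δ := le_trans (h.nonneg i hi) (h.small i hi)
  have h1 : ∀ j ∈ E.filter (fun j => v ∈ e j), (if Bp e v i j then w j else 0) ≤
      (if i = j then w i else 0) + ∑ u ∈ (e i).erase v, (if u ∈ e j then w j else 0) := by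
    intro j hj
    have hjE := (mem_filter.mp hj).1
    have hwj := h.nonneg j hjE
    have hnn : ∀ u ∈ (e i).erase v, (0 : ℝ) ≤ if u ∈ e j then w j else 0 := by
      intro u _
      split_ifs
      · exact hwj
      · exact le_rfl
    have hs := sum_nonneg hnn
    by_cases hB : Bp e v i j
    · rw [if_pos hB]
      rcases hB with rfl | ⟨u, hu1, hu2, hu3⟩
      · rw [if_pos rfl]
        linarith
      · have h2 : w j ≤ ∑ u ∈ (e i).erase v, (if u ∈ e j then w j else 0) := by
          calc w j = if u ∈ e j then w j else 0 := by rw [if_pos hu3]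
            _ ≤ _ := single_le_sum (f := fun u => if u ∈ e j then w j else 0) hnn
                (mem_erase.mpr ⟨hu2, hu1⟩)
        have h3 : (0 : ℝ) ≤ if i = j then w i else 0 := by
          split_ifs
          · exact h.nonneg i hi
          · exact le_rfl
        linarith
    · rw [if_neg hB]
      have h3 : (0 : ℝ) ≤ if i = j then w i else 0 := by
        split_ifs
        · exact h.nonneg i hi
        · exact le_rfl
      linarith
  refine (sum_le_sum h1).trans ?_
  rw [sum_add_distrib, sum_comm]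
  have h4 : ∑ j ∈ E with v ∈ e j, (if i = j then w i else 0) ≤ δ := by
    rw [sum_ite_eq]
    split_ifs
    · exact h.small i hi
    · exact hδ0
  have h5 : ∑ u ∈ (e i).erase v, ∑ j ∈ E with v ∈ e j, (if u ∈ e j then w j else 0) ≤ K * δ := by
    have h6 : ∀ u ∈ (e i).erase v, ∑ j ∈ E with v ∈ e j, (if u ∈ e j then w j else 0) ≤ δ := by
      intro u hu
      rw [← sum_filter, filter_filter]
      have h7 : E.filter (fun j => v ∈ e j ∧ u ∈ e j) = E.filter (fun j => u ∈ e j ∧ v ∈ e j) := by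
        apply filter_congr
        intro j _
        exact and_comm
      rw [h7]
      exact h.codeg u v (mem_erase.mp hu).1
    refine (sum_le_sum h6).trans ?_
    rw [sum_const, nsmul_eq_mul]
    apply mul_le_mul_of_nonneg_right _ hδ0
    exact Nat.cast_le.mpr ((card_le_card (erase_subset _ _)).trans (h.card i hi))
  linarith

/-- the constant in the variance bound -/
noncomputable def Cc (K : ℕ) : ℝ := 2 * K ^ 2 + (K + 1) * 2 ^ K

lemma Cc_nonneg (K : ℕ) : 0 ≤ Cc K := by
  unfold Cc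
  positivity

lemma md_le_q (h : Good e E w K δ) (hα : 0 ≤ α) (hα1 : α ≤ 1 / 2) (v : V) :
    (1 - α) * ∑ i ∈ E with v ∈ e i, w i ≤ Q e E (fun i => α * w i) {v} := by
  have h1 := Q_single_ge h hα (by linarith) v
  have h2 := h.deg v
  refine le_trans ?_ h1
  nlinarith

lemma second (h : Good e E w K δ) (hα : 0 ≤ α) (hα1 : α ≤ 1 / 2)
    (hδ : α * K ^ 2 * δ ≤ 1 / 2) (v : V) :
    ex E (fun i => α * w i) (fun S => X e E w α v S ^ 2) ≤
      ((1 - α) * ∑ i ∈ E with v ∈ e i, w i) ^ 2 / Q e E (fun i => α * w i) {v}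
      + Cc K * δ * ∑ i ∈ E with v ∈ e i, w i := by
  classical
  rw [ex_XX]
  set d := ∑ i ∈ E with v ∈ e i, w i with hd
  set q := Q e E (fun i => α * w i) {v} with hq
  have hqpos : 0 < q := Q_pos h hα hα1 {v}
  have hd0 : 0 ≤ d := sum_nonneg (fun i hi => h.nonneg i (mem_filter.mp hi).1)
  have hmd : (1 - α) * d ≤ q := md_le_q h hα hα1 v
  by_cases hemp : (E.filter (fun i => v ∈ e i)).Nonempty
  swap
  · rw [not_nonempty_iff_eq_empty] at hemp
    have hd00 : d = 0 := by rw [hd, hemp, sum_empty]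
    rw [hemp, sum_empty, hd00]
    simp
  obtain ⟨i0, hi0⟩ := hemp
  have hδ0 : 0 ≤ δ := le_trans (h.nonneg i0 (mem_filter.mp hi0).1) (h.small i0 (mem_filter.mp hi0).1)
  have h1 : ∑ i ∈ E with v ∈ e i, ∑ j ∈ E with v ∈ e j,
        nw e E w α i * nw e E w α j * Q e E (fun i => α * w i) (e i ∪ e j)
      ≤ ∑ i ∈ E with v ∈ e i, ∑ j ∈ E with v ∈ e j,
        ((1 - α) ^ 2 / q * (1 + 2 * (α * K ^ 2 * δ)) * (w i * w j)
      + 2 ^ K * (w i * (if Bp e v i j then w j else 0))) := by
    apply sum_le_sum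
    intro i hi
    apply sum_le_sum
    intro j hj
    rw [mem_filter] at hi hj
    exact pair_le h hα hα1 hδ hi.1 hj.1 hi.2 hj.2
  refine h1.trans ?_
  have h2 : ∑ i ∈ E with v ∈ e i, ∑ j ∈ E with v ∈ e j,
        ((1 - α) ^ 2 / q * (1 + 2 * (α * K ^ 2 * δ)) * (w i * w j)
      + 2 ^ K * (w i * (if Bp e v i j then w j else 0)))
      = (1 - α) ^ 2 / q * (1 + 2 * (α * K ^ 2 * δ)) * (d * d)
      + 2 ^ K * ∑ i ∈ E with v ∈ e i, w i * ∑ j ∈ E with v ∈ e j,
          (if Bp e v i j then w j else 0) := by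
    rw [hd, sum_mul_sum, mul_sum, mul_sum, ← sum_add_distrib]
    apply sum_congr rfl
    intro i _
    rw [sum_add_distrib, mul_sum, mul_sum, mul_sum]
  rw [h2]
  have h3 : ∑ i ∈ E with v ∈ e i, w i * ∑ j ∈ E with v ∈ e j, (if Bp e v i j then w j else 0)
      ≤ d * ((K + 1) * δ) := by
    rw [hd, sum_mul]
    apply sum_le_sum
    intro i hi
    exact mul_le_mul_of_nonneg_left (sum_Bp h (mem_filter.mp hi).1 v)
      (h.nonneg i (mem_filter.mp hi).1)
  have h4 : (1 - α) ^ 2 / q * (1 + 2 * (α * K ^ 2 * δ)) * (d * d)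
      ≤ ((1 - α) * d) ^ 2 / q + 2 * K ^ 2 * δ * d := by
    have h5 : (1 - α) ^ 2 / q * (1 + 2 * (α * K ^ 2 * δ)) * (d * d)
        = ((1 - α) * d) ^ 2 / q + (2 * (α * K ^ 2 * δ)) * (((1 - α) * d) / q) * ((1 - α) * d) := by
      field_simp
    rw [h5]
    have h6 : ((1 - α) * d) / q ≤ 1 := (div_le_one hqpos).mpr hmd
    have h7 : 0 ≤ ((1 - α) * d) / q := div_nonneg (mul_nonneg (by linarith) hd0) hqpos.le
    have h8 : 0 ≤ 2 * (α * K ^ 2 * δ) := by positivity
    have h9 : (2 * (α * K ^ 2 * δ)) * (((1 - α) * d) / q) * ((1 - α) * d) ≤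
        (2 * (K ^ 2 * δ)) * 1 * d := by
      apply mul_le_mul _ _ (mul_nonneg (by linarith) hd0) (by positivity)
      · apply mul_le_mul _ h6 h7 (by positivity)
        have : α * K ^ 2 * δ ≤ K ^ 2 * δ := by
          have h10 : 0 ≤ (K : ℝ) ^ 2 * δ := by positivity
          nlinarith
        linarith
      · nlinarith
    linarith
  have h5 : (2 : ℝ) ^ K * ∑ i ∈ E with v ∈ e i, w i * ∑ j ∈ E with v ∈ e j,
      (if Bp e v i j then w j else 0) ≤ 2 ^ K * (d * ((K + 1) * δ)) :=
    mul_le_mul_of_nonneg_left h3 (by positivity)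
  unfold Cc
  linarith

lemma X_zero_of (v : V) (S : Finset ι) (hv : ¬ Disjoint S (hit e E {v})) :
    X e E w α v S = 0 := by
  unfold X
  apply sum_eq_zero
  intro i hi
  rw [mem_filter] at hi
  have h1 : ¬ Disjoint S (hit e E (e i)) := by
    intro hd
    apply hv
    apply disjoint_of_subset_right _ hd
    intro l hl
    rw [hit_singleton, mem_filter] at hl
    rw [mem_hit]
    exact ⟨hl.1, not_disjoint_iff.mpr ⟨v, hl.2, hi.2⟩⟩
  unfold ind
  rw [if_neg h1, mul_zero]

/-- the loss at one vertex -/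
lemma loss (h : Good e E w K δ) (hα : 0 ≤ α) (hα1 : α ≤ 1 / 2)
    (hδ : α * K ^ 2 * δ ≤ 1 / 2) {θ : ℝ} (hθ : 0 < θ) (v : V) :
    ex E (fun i => α * w i) (fun S => if 1 + θ < X e E w α v S then X e E w α v S else 0) ≤
      (1 / θ ^ 2 + 1 / θ) * (Cc K * δ * ∑ i ∈ E with v ∈ e i, w i) := by
  set d := ∑ i ∈ E with v ∈ e i, w i with hd
  set q := Q e E (fun i => α * w i) {v} with hq
  have hqpos : 0 < q := Q_pos h hα hα1 {v}
  have hd0 : 0 ≤ d := sum_nonneg (fun i hi => h.nonneg i (mem_filter.mp hi).1)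
  have hmd : (1 - α) * d ≤ q := md_le_q h hα hα1 v
  set m := (1 - α) * d / q with hm
  have hm1 : m ≤ 1 := (div_le_one hqpos).mpr hmd
  have hB : 0 ≤ 1 / θ ^ 2 + 1 / θ := by positivity
  have h1 : ex E (fun i => α * w i)
      (fun S => if 1 + θ < X e E w α v S then X e E w α v S else 0) ≤
      ex E (fun i => α * w i) (fun S => (1 / θ ^ 2 + 1 / θ) * ((X e E w α v S ^ 2 -
        (2 * m) * X e E w α v S) + m ^ 2 * ind e E {v} S)) := by
    apply ex_mono (pn h hα) (pl h hα (by linarith))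
    intro S _
    by_cases hv : Disjoint S (hit e E {v})
    · have h2 : ind e E {v} S = 1 := by
        unfold ind
        rw [if_pos hv]
      rw [h2]
      set x := X e E w α v S
      have h3 : (x ^ 2 - (2 * m) * x) + m ^ 2 * 1 = (x - m) ^ 2 := by ring
      rw [h3]
      split_ifs with hx
      · have hz : θ < x - m := by linarith
        have hx1 : x ≤ 1 + (x - m) := by linarith
        set z := x - m
        have h4 : 1 ≤ z ^ 2 / θ ^ 2 := by
          rw [le_div_iff₀ (by positivity)]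
          nlinarith
        have h5 : z ≤ z ^ 2 / θ := by
          rw [le_div_iff₀ hθ]
          nlinarith
        have h6 : (1 / θ ^ 2 + 1 / θ) * z ^ 2 = z ^ 2 / θ ^ 2 + z ^ 2 / θ := by ring
        rw [h6]
        linarith
      · positivity
    · rw [X_zero_of v S hv]
      have h2 : ind e E {v} S = 0 := by
        unfold ind
        rw [if_neg hv]
      rw [h2]
      have h3 : ¬ (1 + θ < 0) := by linarith
      rw [if_neg h3]
      simp
  refine h1.trans ?_
  rw [ex_mul, ex_add, ex_sub, ex_mul, ex_mul, ex_X h hα hα1, ex_ind]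
  apply mul_le_mul_of_nonneg_left _ hB
  have h2 := second h hα hα1 hδ v
  rw [← hd, ← hq] at h2
  rw [← hd, ← hq]
  have h3 : 2 * m * ((1 - α) * d) = 2 * (((1 - α) * d) ^ 2 / q) := by
    rw [hm]
    ring
  have h4 : m ^ 2 * q = ((1 - α) * d) ^ 2 / q := by
    rw [hm]
    field_simp
  rw [h3, h4]
  linarith

end Pool.Agent.Lib.MP_21e00f_co
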