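import Mathlib

/-!
MP_21e00f_co: counting lemmas in the box `[0, L)^n`.
-/

set_option autoImplicit false

open Finset

namespace Pool.Agent.Lib.MP_21e00f_co

/-- the box `[0, L)^n` -/
def box (n L : ℕ) : Finset (Fin n → ℕ) := Fintype.piFinset (fun _ => range L)

lemma mem_box {n L : ℕ} {r : Fin n → ℕ} : r ∈ box n L ↔ ∀ i, r i < L := by
  unfold box
  simp [Fintype.mem_piFinset]

lemma card_box (n L : ℕ) : (box n L).card = L ^ n := by
  unfold box
  simp [Fintype.card_piFinset]

/-- the face `r i = 0` of the box -/
def face (n L : ℕ) (i : Fin n) : Finset (Fin n → ℕ) :=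
  Fintype.piFinset (fun j => if j = i then {0} else range L)

lemma card_face (n L : ℕ) (i : Fin n) : (face n L i).card = L ^ (n - 1) := by
  unfold face
  rw [Fintype.card_piFinset]
  have h1 : ∀ j : Fin n, (if j = i then ({0} : Finset ℕ) else range L).card =
      if j = i then 1 else L := by
    intro j
    split_ifs <;> simp
  rw [prod_congr rfl (fun j _ => h1 j), prod_ite, prod_const_one, one_mul, prod_const]
  congr 1
  have h2 : (univ.filter (fun j : Fin n => ¬ j = i)) = univ.erase i := by
    ext j
    simp
  rw [h2, card_erase_of_mem (mem_univ _), card_univ, Fintype.card_fin]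

lemma update_mem_face {n L : ℕ} {i : Fin n} {r : Fin n → ℕ} (hr : r ∈ box n L) :
    Function.update r i 0 ∈ face n L i := by
  unfold face
  rw [Fintype.mem_piFinset]
  intro j
  by_cases hj : j = i
  · subst hj
    simp
  · rw [if_neg hj, Function.update_of_ne hj]
    exact mem_range.mpr (mem_box.mp hr j)

lemma eq_of_update {n : ℕ} {i : Fin n} {r r' : Fin n → ℕ}
    (h : Function.update r i 0 = Function.update r' i 0) : ∀ j, j ≠ i → r j = r' j := by
  intro j hj
  have := congrFun h j
  rwa [Function.update_of_ne hj, Function.update_of_ne hj] at this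

/-- sums over index sets avoiding `i` agree -/
lemma sum_eq_of_notMem {n : ℕ} {i : Fin n} {r r' : Fin n → ℕ} (h : ∀ j, j ≠ i → r j = r' j)
    {I : Finset (Fin n)} (hi : i ∉ I) : ∑ j ∈ I, r j = ∑ j ∈ I, r' j := by
  apply sum_congr rfl
  intro j hj
  exact h j (fun hx => hi (hx ▸ hj))

lemma eq_of_sum {n : ℕ} {i : Fin n} {r r' : Fin n → ℕ} (h : ∀ j, j ≠ i → r j = r' j)
    {I : Finset (Fin n)} (hi : i ∈ I) (hs : ∑ j ∈ I, r j = ∑ j ∈ I, r' j) : r = r' := by
  have h1 := add_sum_erase I r hi
  have h2 := add_sum_erase I r' hi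
  have h3 := sum_eq_of_notMem h (notMem_erase i I)
  have h4 : r i = r' i := by omega
  ext j
  by_cases hj : j = i
  · rw [hj, h4]
  · exact h j hj

lemma exists_symm {n : ℕ} {I J : Finset (Fin n)} (h : I ≠ J) :
    (∃ i, i ∈ I ∧ i ∉ J) ∨ (∃ i, i ∈ J ∧ i ∉ I) := by
  by_contra hcon
  push Not at hcon
  exact h (Subset.antisymm (fun i hi => hcon.1 i hi) (fun i hi => hcon.2 i hi))

/-- the subset sums of `a + v + r` -/
lemma sum_shift {n : ℕ} (a : Fin n → ℕ) (v : ℕ) (r : Fin n → ℕ) (I : Finset (Fin n)) :
    ∑ i ∈ I, (a i + v + r i) = ∑ i ∈ I, a i + I.card * v + ∑ i ∈ I, r i := by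
  rw [sum_add_distrib, sum_add_distrib, sum_const, smul_eq_mul]

/-- two prescribed subset sums: at most `L^(n-1)` pairs `(v, r)` -/
lemma count_two {n L T : ℕ} (a : Fin n → ℕ) (y y' : ℕ) {I J : Finset (Fin n)}
    (hI : I.Nonempty) (hJ : J.Nonempty) (hIJ : I ≠ J) :
    ((range T ×ˢ box n L).filter (fun x => ∑ i ∈ I, (a i + x.1 + x.2 i) = y ∧
      ∑ i ∈ J, (a i + x.1 + x.2 i) = y')).card ≤ L ^ (n - 1) := by
  have main : ∀ (y y' : ℕ) (I J : Finset (Fin n)), I.Nonempty → (∃ i, i ∈ J ∧ i ∉ I) →
      ((range T ×ˢ box n L).filter (fun x => ∑ i ∈ I, (a i + x.1 + x.2 i) = y ∧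
      ∑ i ∈ J, (a i + x.1 + x.2 i) = y')).card ≤ L ^ (n - 1) := by
    rintro y y' I J hI ⟨i, hiJ, hiI⟩
    rw [← card_face n L i]
    apply card_le_card_of_injOn (fun x => Function.update x.2 i 0)
    · intro x hx
      rw [mem_coe, mem_filter, mem_product] at hx
      exact update_mem_face hx.1.2
    · rintro ⟨v, r⟩ hx ⟨v', r'⟩ hx' h
      rw [mem_coe, mem_filter, mem_product] at hx hx'
      obtain ⟨_, h1, h2⟩ := hx
      obtain ⟨_, h1', h2'⟩ := hx'
      have hr : ∀ j, j ≠ i → r j = r' j := eq_of_update h
      simp only [sum_shift] at h1 h2 h1' h2'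
      have h3 := sum_eq_of_notMem hr hiI
      have h4 : I.card * v = I.card * v' := by omega
      have h5 : v = v' := Nat.eq_of_mul_eq_mul_left (card_pos.mpr hI) h4
      subst h5
      have h6 : ∑ j ∈ J, r j = ∑ j ∈ J, r' j := by omega
      have h7 := eq_of_sum hr hiJ h6
      rw [h7]
  rcases exists_symm hIJ with h | h
  · have h1 := main y' y J I hJ h
    refine le_trans (le_of_eq ?_) h1
    congr 1
    apply filter_congr
    intro x _
    exact and_comm
  · exact main y y' I J hI h

/-- coincidences of subset sums: at most `L^(n-1)` vectors `r` -/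
lemma count_bad {n L : ℕ} (a : Fin n → ℕ) (v : ℕ) {I J : Finset (Fin n)} (hIJ : I ≠ J) :
    ((box n L).filter (fun r => ∑ i ∈ I, (a i + v + r i) = ∑ i ∈ J, (a i + v + r i))).card ≤
      L ^ (n - 1) := by
  have main : ∀ (I J : Finset (Fin n)), (∃ i, i ∈ J ∧ i ∉ I) →
      ((box n L).filter (fun r => ∑ i ∈ I, (a i + v + r i) =
        ∑ i ∈ J, (a i + v + r i))).card ≤ L ^ (n - 1) := by
    rintro I J ⟨i, hiJ, hiI⟩
    rw [← card_face n L i]
    apply card_le_card_of_injOn (fun r => Function.update r i 0)
    · intro x hx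
      rw [mem_coe, mem_filter] at hx
      exact update_mem_face hx.1
    · intro r hx r' hx' h
      rw [mem_coe, mem_filter] at hx hx'
      have hr := eq_of_update h
      obtain ⟨_, h1⟩ := hx
      obtain ⟨_, h1'⟩ := hx'
      simp only [sum_shift] at h1 h1'
      have h3 := sum_eq_of_notMem hr hiI
      have h6 : ∑ j ∈ J, r j = ∑ j ∈ J, r' j := by omega
      exact eq_of_sum hr hiJ h6
  rcases exists_symm hIJ with h | h
  · have h1 := main J I h
    refine le_trans (le_of_eq ?_) h1
    congr 1
    apply filter_congr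
    intro x _
    exact eq_comm
  · exact main I J h

/-- residue classes of a partial sum are hit at most `L^n / k` times -/
lemma count_mod {n L k : ℕ} (hk : 0 < k) (hkL : k ∣ L) {I : Finset (Fin n)} (hI : I.Nonempty)
    (c : ℕ) :
    k * ((box n L).filter (fun r => (∑ i ∈ I, r i) % k = c % k)).card ≤ L ^ n := by
  by_cases hL : L = 0
  · subst hL
    have hn : 0 < n := Fin.pos hI.choose
    have : box n 0 = ∅ := by
      rw [← card_eq_zero, card_box]
      exact zero_pow hn.ne'
    rw [this, filter_empty, card_empty, mul_zero]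
    exact Nat.zero_le _
  have hL' : 0 < L := Nat.pos_of_ne_zero hL
  obtain ⟨i, hi⟩ := hI
  set N : ℕ → ℕ := fun c => ((box n L).filter (fun r => (∑ i ∈ I, r i) % k = c % k)).card with hN
  have hstep : ∀ c, N c ≤ N (c + 1) := by
    intro c
    apply card_le_card_of_injOn (fun r => Function.update r i ((r i + 1) % L))
    · intro r hr
      rw [mem_coe, mem_filter] at hr ⊢
      constructor
      · rw [mem_box]
        intro j
        by_cases hj : j = i
        · subst hj
          show Function.update r j ((r j + 1) % L) j < L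
          rw [Function.update_self]
          exact Nat.mod_lt _ hL'
        · show Function.update r i ((r i + 1) % L) j < L
          rw [Function.update_of_ne hj]
          exact mem_box.mp hr.1 j
      · have h1 := add_sum_erase I r hi
        have h2 := add_sum_erase I (Function.update r i ((r i + 1) % L)) hi
        rw [Function.update_self] at h2
        have h3 : ∑ j ∈ I.erase i, Function.update r i ((r i + 1) % L) j = ∑ j ∈ I.erase i, r j := by
          apply sum_congr rfl
          intro j hj
          rw [Function.update_of_ne (mem_erase.mp hj).1]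
        rw [h3] at h2
        show (∑ j ∈ I, Function.update r i ((r i + 1) % L) j) % k = (c + 1) % k
        rw [← h2]
        have h4 : (r i + 1) % L % k = (r i + 1) % k := Nat.mod_mod_of_dvd _ hkL
        have h5 : ((r i + 1) % L + ∑ j ∈ I.erase i, r j) % k =
            (r i + 1 + ∑ j ∈ I.erase i, r j) % k := by
          rw [Nat.add_mod, h4, ← Nat.add_mod]
        rw [h5]
        have h6 : r i + 1 + ∑ j ∈ I.erase i, r j = ∑ j ∈ I, r j + 1 := by omega
        rw [h6, Nat.add_mod, hr.2, ← Nat.add_mod]
    · intro r hr r' hr' h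
      rw [mem_coe, mem_filter] at hr hr'
      have h1 : ∀ j, j ≠ i → r j = r' j := by
        intro j hj
        have := congrFun h j
        simp only [Function.update_of_ne hj] at this
        exact this
      have h2 := congrFun h i
      simp only [Function.update_self] at h2
      have h3 := mem_box.mp hr.1 i
      have h4 := mem_box.mp hr'.1 i
      have h5 : r i = r' i := by
        rcases Nat.lt_or_ge (r i + 1) L with h6 | h6
        · rcases Nat.lt_or_ge (r' i + 1) L with h7 | h7
          · rw [Nat.mod_eq_of_lt h6, Nat.mod_eq_of_lt h7] at h2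
            omega
          · have h8 : r' i + 1 = L := by omega
            rw [h8, Nat.mod_self, Nat.mod_eq_of_lt h6] at h2
            omega
        · have h8 : r i + 1 = L := by omega
          rcases Nat.lt_or_ge (r' i + 1) L with h7 | h7
          · rw [h8, Nat.mod_self, Nat.mod_eq_of_lt h7] at h2
            omega
          · omega
      ext j
      by_cases hj : j = i
      · rw [hj, h5]
      · exact h1 j hj
  have hmono : ∀ c l, N c ≤ N (c + l) := by
    intro c l
    induction l with
    | zero => exact le_rfl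
    | succ l ih => exact ih.trans (hstep (c + l))
  have hper : ∀ c c', c % k = c' % k → N c = N c' := by
    intro c c' h
    simp only [hN, h]
  have hall : ∀ c' ∈ range k, N c ≤ N c' := by
    intro c' _
    have h1 : c ≤ c' + k * c := by
      have : c ≤ k * c := Nat.le_mul_of_pos_left c hk
      omega
    obtain ⟨l, hl⟩ := Nat.exists_eq_add_of_le h1
    have h2 := hmono c l
    rw [← hl] at h2
    rw [hper (c' + k * c) c' (by simp)] at h2
    exact h2
  have hsum : ∑ c' ∈ range k, N c' = L ^ n := by
    rw [← card_box n L]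
    have h1 := card_eq_sum_card_fiberwise (f := fun r : Fin n → ℕ => (∑ i ∈ I, r i) % k)
      (s := box n L) (t := range k) (by
        intro r _
        rw [mem_coe, mem_range]
        exact Nat.mod_lt _ hk)
    rw [h1]
    apply sum_congr rfl
    intro c' hc'
    rw [mem_range] at hc'
    show ((box n L).filter (fun r => (∑ i ∈ I, r i) % k = c' % k)).card = _
    rw [Nat.mod_eq_of_lt hc']
  calc k * N c = ∑ _c' ∈ range k, N c := by simp
    _ ≤ ∑ c' ∈ range k, N c' := sum_le_sum hall
    _ = L ^ n := hsum

end Pool.Agent.Lib.MP_21e00f_co
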