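import Mathlib

/-!
MP_21e00f_co: definitions for compatible sum-distinct sequences.
-/

set_option autoImplicit false

open Finset

namespace Pool.Agent.Lib.MP_21e00f_co

/-- `a` is sum-distinct: different index sets have different subsums. -/
def SumDistinct {n : ℕ} (a : Fin n → ℕ) : Prop :=
  ∀ I J : Finset (Fin n), ∑ i ∈ I, a i = ∑ i ∈ J, a i → I = J

/-- `a` and `b` are compatible: no nonempty subsum of `a` equals a nonempty subsum of `b`. -/
def Compatible {n : ℕ} (a b : Fin n → ℕ) : Prop :=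
  ∀ I J : Finset (Fin n), I.Nonempty → J.Nonempty → ∑ i ∈ I, a i ≠ ∑ i ∈ J, b i

/-- A family of `t` pairwise compatible sum-distinct sequences of length `n`, each a strictly
increasing sequence of positive integers. -/
def IsFamily (t n : ℕ) (A : Fin t → Fin n → ℕ) : Prop :=
  (∀ j, StrictMono (A j)) ∧ (∀ j i, 0 < A j i) ∧ (∀ j, SumDistinct (A j)) ∧
    ∀ j k, j ≠ k → Compatible (A j) (A k)

/-- `s t n`: the minimum, over all such families, of the largest element occurring. -/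
noncomputable def s (t n : ℕ) : ℕ :=
  sInf {M : ℕ | ∃ A : Fin t → Fin n → ℕ, IsFamily t n A ∧ (∀ j i, A j i ≤ M) ∧ ∃ j i, A j i = M}

/-- a family with all elements at most `B` gives `s t n ≤ B` -/
lemma s_le {t n B : ℕ} (ht : 1 ≤ t) (hn : 1 ≤ n) (A : Fin t → Fin n → ℕ) (hA : IsFamily t n A)
    (hB : ∀ j i, A j i ≤ B) : s t n ≤ B := by
  have : Nonempty (Fin t × Fin n) := ⟨(⟨0, ht⟩, ⟨0, hn⟩)⟩
  obtain ⟨⟨j0, i0⟩, h0⟩ := Finite.exists_max (fun x : Fin t × Fin n => A x.1 x.2)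
  have h1 : A j0 i0 ∈ {M : ℕ | ∃ A : Fin t → Fin n → ℕ, IsFamily t n A ∧ (∀ j i, A j i ≤ M) ∧
      ∃ j i, A j i = M} :=
    ⟨A, hA, fun j i => h0 (j, i), j0, i0, rfl⟩
  exact (Nat.sInf_le h1).trans (hB j0 i0)

/-- the restriction of a family to fewer sequences -/
lemma s_le' {t t' n B : ℕ} (ht : 1 ≤ t) (hn : 1 ≤ n) (htt : t ≤ t') (A : Fin t' → Fin n → ℕ)
    (hA : IsFamily t' n A) (hB : ∀ j i, A j i ≤ B) : s t n ≤ B := by
  apply s_le ht hn (fun j => A (Fin.castLE htt j))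
  · obtain ⟨h1, h2, h3, h4⟩ := hA
    refine ⟨fun j => h1 _, fun j i => h2 _ i, fun j => h3 _, fun j k hjk => h4 _ _ ?_⟩
    intro h
    apply hjk
    have := congrArg Fin.val h
    simp only [Fin.val_castLE] at this
    exact Fin.ext this
  · exact fun j i => hB _ i

/-- the family `j * 2^n + 2^i` shows that the minimum exists -/
lemma exists_family (t n : ℕ) : ∃ A : Fin t → Fin n → ℕ, IsFamily t n A := by
  have hlt : ∀ I : Finset (Fin n), ∑ i ∈ I, 2 ^ (i : ℕ) < 2 ^ n := by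
    intro I
    have h1 : ∑ i ∈ I, 2 ^ (i : ℕ) = ∑ k ∈ I.map Fin.valEmbedding, 2 ^ k := by
      rw [sum_map]
      rfl
    rw [h1]
    apply Nat.geomSum_lt le_rfl
    intro k hk
    rw [mem_map] at hk
    obtain ⟨i, _, rfl⟩ := hk
    exact i.2
  have hinj : ∀ I J : Finset (Fin n), ∑ i ∈ I, 2 ^ (i : ℕ) = ∑ i ∈ J, 2 ^ (i : ℕ) → I = J := by
    intro I J h
    have h1 : ∀ I : Finset (Fin n), ∑ i ∈ I, 2 ^ (i : ℕ) = ∑ k ∈ I.map Fin.valEmbedding, 2 ^ k := by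
      intro I
      rw [sum_map]
      rfl
    rw [h1, h1] at h
    exact map_injective _ (Finset.geomSum_injective (n := 2) le_rfl h)
  have hsum : ∀ (j : ℕ) (I : Finset (Fin n)), ∑ i ∈ I, (j * 2 ^ n + 2 ^ (i : ℕ)) =
      (I.card * j) * 2 ^ n + ∑ i ∈ I, 2 ^ (i : ℕ) := by
    intro j I
    rw [sum_add_distrib, sum_const, smul_eq_mul, mul_assoc]
  have key : ∀ (j k : ℕ) (I J : Finset (Fin n)),
      ∑ i ∈ I, (j * 2 ^ n + 2 ^ (i : ℕ)) = ∑ i ∈ J, (k * 2 ^ n + 2 ^ (i : ℕ)) →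
      I = J ∧ I.card * j = I.card * k := by
    intro j k I J h
    rw [hsum, hsum] at h
    have h1 := hlt I
    have h2 := hlt J
    have h3 : ∑ i ∈ I, 2 ^ (i : ℕ) = ∑ i ∈ J, 2 ^ (i : ℕ) := by
      have h4 := congrArg (fun x => x % 2 ^ n) h
      simp only [Nat.mul_add_mod_self_right] at h4
      rwa [Nat.mod_eq_of_lt h1, Nat.mod_eq_of_lt h2] at h4
    have h5 := hinj I J h3
    subst h5
    refine ⟨rfl, ?_⟩
    have h6 : (I.card * j) * 2 ^ n = (I.card * k) * 2 ^ n := by omega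
    exact Nat.eq_of_mul_eq_mul_right (by positivity) h6
  refine ⟨fun j i => (j : ℕ) * 2 ^ n + 2 ^ (i : ℕ), ?_, ?_, ?_, ?_⟩
  · intro j i i' hii
    have : 2 ^ (i : ℕ) < 2 ^ (i' : ℕ) := Nat.pow_lt_pow_right (by norm_num) hii
    show (j : ℕ) * 2 ^ n + 2 ^ (i : ℕ) < (j : ℕ) * 2 ^ n + 2 ^ (i' : ℕ)
    omega
  · intro j i
    positivity
  · intro j I J h
    exact (key j j I J h).1
  · intro j k hjk I J hI hJ h
    obtain ⟨rfl, h2⟩ := key j k I J h
    apply hjk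
    exact Fin.ext (Nat.eq_of_mul_eq_mul_left (card_pos.mpr hI) h2)

/-- the minimum is attained -/
lemma s_attained {t n : ℕ} (ht : 1 ≤ t) (hn : 1 ≤ n) :
    ∃ A : Fin t → Fin n → ℕ, IsFamily t n A ∧ ∀ j i, A j i ≤ s t n := by
  obtain ⟨A, hA⟩ := exists_family t n
  have : Nonempty (Fin t × Fin n) := ⟨(⟨0, ht⟩, ⟨0, hn⟩)⟩
  obtain ⟨⟨j0, i0⟩, h0⟩ := Finite.exists_max (fun x : Fin t × Fin n => A x.1 x.2)
  have h1 : (A j0 i0) ∈ {M : ℕ | ∃ A : Fin t → Fin n → ℕ, IsFamily t n A ∧ (∀ j i, A j i ≤ M) ∧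
      ∃ j i, A j i = M} :=
    ⟨A, hA, fun j i => h0 (j, i), j0, i0, rfl⟩
  obtain ⟨A', hA', hM, _⟩ := Nat.sInf_mem ⟨_, h1⟩
  exact ⟨A', hA', hM⟩

end Pool.Agent.Lib.MP_21e00f_co
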