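import Pool.Agent.Lib.MP_21e00f_co.Pack

/-!
MP_21e00f_co: the upper bound `s(t,n) ≤ (1 + o(1)) t * ∑ 1 / |I|`, and the lower bound
`t * ∑_{i ≤ k} C(n,i) ≤ k * s(t,n)`.
-/

set_option autoImplicit false

open Finset

namespace Pool.Agent.Lib.MP_21e00f_co

/-- `∑ 1 / |I|` over the nonempty subsets `I` of `Fin n` -/
noncomputable def cn (n : ℕ) : ℝ :=
  ∑ I ∈ (univ : Finset (Finset (Fin n))).erase ∅, 1 / (I.card : ℝ)

lemma cn_ge_one {n : ℕ} (hn : 1 ≤ n) : 1 ≤ cn n := by
  unfold cn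
  have h1 : ({(⟨0, hn⟩ : Fin n)} : Finset (Fin n)) ∈
      (univ : Finset (Finset (Fin n))).erase ∅ :=
    mem_erase.mpr ⟨singleton_ne_empty _, mem_univ _⟩
  refine le_trans ?_ (single_le_sum (f := fun I : Finset (Fin n) => 1 / (I.card : ℝ))
    (fun I _ => by positivity) h1)
  simp

lemma card_dvd {n L : ℕ} (hL : n.factorial ∣ L) {I : Finset (Fin n)} (hI : I.Nonempty) :
    I.card ∣ L := by
  refine (Nat.dvd_factorial (card_pos.mpr hI) ?_).trans hL
  have := card_le_univ I
  simpa using this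

lemma count_mod_real {n L : ℕ} (hL : n.factorial ∣ L) {I : Finset (Fin n)} (hI : I.Nonempty)
    (c : ℕ) (F : Finset (Fin n → ℕ)) (hF : F ⊆ box n L)
    (hF2 : ∀ r ∈ F, (∑ i ∈ I, r i) % I.card = c % I.card) :
    (F.card : ℝ) ≤ (L : ℝ) ^ n / I.card := by
  have hk : 0 < I.card := card_pos.mpr hI
  have h1 := count_mod hk (card_dvd hL hI) hI c
  have h2 : F.card ≤ ((box n L).filter (fun r => (∑ i ∈ I, r i) % I.card = c % I.card)).card :=
    card_le_card (fun r hr => mem_filter.mpr ⟨hF hr, hF2 r hr⟩)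
  have hk' : (0 : ℝ) < I.card := by exact_mod_cast hk
  rw [le_div_iff₀ hk']
  have h3 : F.card * I.card ≤ L ^ n := by
    refine le_trans ?_ h1
    rw [mul_comm]
    exact Nat.mul_le_mul_left _ h2
  exact_mod_cast h3

lemma cov_flat {n L : ℕ} (hL : n.factorial ∣ L) (T y : ℕ) :
    cov (m := 1) (fun _ (_ : Fin n) => 1) (fun _ _ => 1) T L y ≤ cn n * (L : ℝ) ^ n := by
  unfold cov cn
  rw [sum_mul]
  apply sum_le_sum
  intro I hI
  rw [mem_erase] at hI
  have hI' : I.Nonempty := nonempty_iff_ne_empty.mpr hI.1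
  have hk : 0 < I.card := card_pos.mpr hI'
  set F := (E0 1 n T L).filter (fun x => ∑ i ∈ I, sq (fun _ (_ : Fin n) => 1) x i = y) with hF
  have hsum : ∀ x ∈ F, y = I.card * (1 + x.2.1) + ∑ i ∈ I, x.2.2 i := by
    intro x hx
    have h1 := (mem_filter.mp hx).2
    unfold sq at h1
    rw [sum_shift] at h1
    rw [← h1]
    simp
    ring
  have hinj : Set.InjOn (fun x : Idx 1 n => x.2.2) F := by
    rintro ⟨j, v, r⟩ hx ⟨j', v', r'⟩ hx' h
    have h1 := hsum _ hx
    have h2 := hsum _ hx'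
    have h3 : r = r' := h
    subst h3
    have h4 : I.card * (1 + v) = I.card * (1 + v') := by
      simp only at h1 h2
      omega
    have h5 : 1 + v = 1 + v' := Nat.eq_of_mul_eq_mul_left hk h4
    have h6 : v = v' := by omega
    have h7 : j = j' := Subsingleton.elim _ _
    rw [h6, h7]
  have h1 := count_mod_real hL hI' y (F.image (fun x => x.2.2))
    (by
      intro r hr
      rw [mem_image] at hr
      obtain ⟨x, hx, rfl⟩ := hr
      have h2 := (mem_filter.mp hx).1
      unfold E0 at h2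
      rw [mem_product, mem_product] at h2
      exact h2.2.2)
    (by
      intro r hr
      rw [mem_image] at hr
      obtain ⟨x, hx, rfl⟩ := hr
      have h2 := hsum x hx
      rw [h2]
      simp)
  rw [card_image_of_injOn hinj] at h1
  rw [sum_const, nsmul_eq_mul, mul_one]
  refine h1.trans (le_of_eq ?_)
  ring

theorem upper {n : ℕ} (hn : 1 ≤ n) {η : ℝ} (hη : 0 < η) (hη1 : η < 1) :
    ∃ C : ℝ, ∀ t : ℕ, 1 ≤ t → (s t n : ℝ) ≤ cn n / (1 - η) * t + C := by
  obtain ⟨L, hL, hLf, h⟩ := pack n 1 hn η hη hη1.le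
  refine ⟨2 + L, ?_⟩
  intro t ht
  have hc := cn_ge_one hn
  have h1η : 0 < 1 - η := by linarith
  set T := ⌈cn n / (1 - η) * t⌉₊ with hT
  obtain ⟨t', A, hA, ht', hB⟩ := h (fun _ _ => 1) T (fun _ _ => 1) (cn n) hc
    (fun _ _ => zero_le_one) (fun _ _ => le_rfl) (fun _ _ => le_rfl)
    (fun y => cov_flat hLf T y)
  have h1 : (t : ℝ) ≤ t' := by
    refine le_trans ?_ ht'
    have h2 : (∑ _j : Fin 1, ∑ _v ∈ range T, (1 : ℝ)) = T := by simp
    rw [h2, le_div_iff₀ (by linarith)]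
    have h3 : cn n / (1 - η) * t ≤ T := Nat.le_ceil _
    have h4 : (1 - η) * (cn n / (1 - η) * t) ≤ (1 - η) * T :=
      mul_le_mul_of_nonneg_left h3 h1η.le
    have h5 : (1 - η) * (cn n / (1 - η) * t) = t * cn n := by
      field_simp
    linarith
  have h2 : t ≤ t' := by exact_mod_cast h1
  have h3 := s_le' ht hn h2 A hA (hB 1 (fun _ _ => le_rfl))
  have h4 : (s t n : ℝ) ≤ 1 + T + L := by exact_mod_cast h3
  have h5 : (T : ℝ) < cn n / (1 - η) * t + 1 := Nat.ceil_lt_add_one (by positivity)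
  linarith

/-- lower bound from the small subsets -/
theorem lower {t n : ℕ} (ht : 1 ≤ t) (hn : 1 ≤ n) (k : ℕ) :
    t * ∑ i ∈ Icc 1 k, n.choose i ≤ k * s t n := by
  classical
  obtain ⟨A, ⟨_, hpos, hsd, hc⟩, hM⟩ := s_attained ht hn
  let P : Finset (Finset (Fin n)) := (Icc 1 k).biUnion (fun i => powersetCard i univ)
  have hP : P.card = ∑ i ∈ Icc 1 k, n.choose i := by
    rw [card_biUnion]
    · apply sum_congr rfl
      intro i _
      rw [card_powersetCard, card_univ, Fintype.card_fin]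
    · intro i _ j _ hij
      exact pairwise_disjoint_powersetCard _ hij
  have hPm : ∀ I ∈ P, I.Nonempty ∧ I.card ≤ k := by
    intro I hI
    rw [mem_biUnion] at hI
    obtain ⟨i, hi, hI⟩ := hI
    rw [mem_powersetCard] at hI
    rw [mem_Icc] at hi
    constructor
    · apply card_pos.mp
      omega
    · omega
  let S : Finset (Fin t × Finset (Fin n)) := univ ×ˢ P
  have hS : S.card = t * ∑ i ∈ Icc 1 k, n.choose i := by
    simp [S, card_product, hP]
  let f : Fin t × Finset (Fin n) → ℕ := fun x => ∑ i ∈ x.2, A x.1 i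
  have hinj : Set.InjOn f S := by
    rintro ⟨j, I⟩ hx ⟨j', J⟩ hy h
    rw [mem_coe, mem_product] at hx hy
    by_cases hjk : j = j'
    · subst hjk
      rw [hsd j I J h]
    · exact absurd h (hc j j' hjk I J (hPm I hx.2).1 (hPm J hy.2).1)
  have hmaps : ∀ x ∈ S, f x ∈ Icc 1 (k * s t n) := by
    rintro ⟨j, I⟩ hx
    rw [mem_product] at hx
    obtain ⟨hI, hIk⟩ := hPm I hx.2
    rw [mem_Icc]
    constructor
    · obtain ⟨i, hi⟩ := hI
      have h1 : A j i ≤ ∑ i ∈ I, A j i := single_le_sum (fun _ _ => Nat.zero_le _) hi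
      have h2 := hpos j i
      exact h2.trans_le h1
    · calc f (j, I) ≤ ∑ _i ∈ I, s t n := sum_le_sum (fun i _ => hM j i)
        _ = I.card * s t n := by rw [sum_const, smul_eq_mul]
        _ ≤ k * s t n := Nat.mul_le_mul_right _ hIk
  have h1 := card_le_card_of_injOn f hmaps hinj
  rw [hS, Nat.card_Icc] at h1
  omega

end Pool.Agent.Lib.MP_21e00f_co
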