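import Pool.Agent.Lib.MP_21e00f_co.Mix

/-!
MP_21e00f_co: `s(t,n) / t` converges as `t → ∞`.
-/

set_option autoImplicit false

open Finset Filter Topology

namespace Pool.Agent.Lib.MP_21e00f_co

/-- a bound for the scales -/
def Bm (n Q B0 : ℕ) : ℕ := (box n Q).sup (Bf n B0)

theorem step_up {n m Q B0 : ℕ} (hn : 1 ≤ n) (hm : 1 ≤ m) (hQ : 1 ≤ Q) (hB0 : 1 ≤ B0) {η : ℝ}
    (hη : 0 < η) (hη1 : η < 1) :
    ∃ C : ℝ, ∀ t : ℕ, 1 ≤ t → (s t n : ℝ) ≤
      (1 + 1 / B0 + 2 * n / Q) / (1 - η) * (((s m n : ℝ) + Bm n Q B0) / m) * t + C := by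
  obtain ⟨L, hL, hLf, h⟩ := pack n m hn η hη hη1.le
  obtain ⟨A, hA, hAs⟩ := s_attained hm hn
  set κ : ℝ := 1 + 1 / B0 + 2 * n / Q with hκ
  have hκ1 : 1 ≤ κ := by
    have h1 : (0 : ℝ) ≤ 1 / B0 := by positivity
    have h2 : (0 : ℝ) ≤ 2 * n / Q := by positivity
    rw [hκ]
    linarith
  have hκ0 : 0 < κ := by linarith
  have h1η : 0 < 1 - η := by linarith
  have hmr : (0 : ℝ) < m := by exact_mod_cast hm
  set S := s m n with hS
  set B := Bm n Q B0 with hB
  refine ⟨(n.factorial * (n * L + 2)) * (S + B) + L, ?_⟩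
  intro t ht
  set X : ℝ := κ * t / ((1 - η) * m) with hX
  have hX0 : 0 ≤ X := by positivity
  set N0 := ⌈X / n.factorial⌉₊ + (n * L + 1) with hN0
  set N := n.factorial * N0 with hN
  have hfac : 0 < n.factorial := Nat.factorial_pos n
  have hfacr : (0 : ℝ) < n.factorial := by exact_mod_cast hfac
  have hNpos : 0 < N := Nat.mul_pos hfac (by omega)
  have hNL : n * L ≤ N := by
    calc n * L ≤ N0 := by omega
      _ ≤ N := Nat.le_mul_of_pos_left _ hfac
  have hNX : X ≤ N := by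
    have h1 : X / n.factorial ≤ (N0 : ℝ) := by
      have h2 : X / n.factorial ≤ (⌈X / n.factorial⌉₊ : ℝ) := Nat.le_ceil _
      rw [hN0]
      push_cast
      have h3 : (0 : ℝ) ≤ n * L + 1 := by positivity
      linarith
    rw [div_le_iff₀ hfacr] at h1
    rw [hN]
    push_cast
    linarith
  have hNle : (N : ℝ) ≤ X + n.factorial * (n * L + 2) := by
    have h1 : (⌈X / n.factorial⌉₊ : ℝ) < X / n.factorial + 1 :=
      Nat.ceil_lt_add_one (by positivity)
    have h2 : (N0 : ℝ) ≤ X / n.factorial + (n * L + 2) := by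
      rw [hN0]
      push_cast
      linarith
    have h3 : (n.factorial : ℝ) * N0 ≤ n.factorial * (X / n.factorial + (n * L + 2)) :=
      mul_le_mul_of_nonneg_left h2 hfacr.le
    have h4 : (n.factorial : ℝ) * (X / n.factorial + (n * L + 2)) =
        X + n.factorial * (n * L + 2) := by
      field_simp
    rw [hN]
    push_cast
    linarith
  have hT : ∀ e ∈ box n Q, N * Bf n B0 e ≤ N * B := by
    intro e he
    exact Nat.mul_le_mul_left _ (le_sup (f := Bf n B0) he)
  obtain ⟨t', A', hA', ht', hB'⟩ := h (fun j i => N * A j i) (N * B)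
    (fun _ v => om n B0 Q N v) κ hκ1 (fun _ v => om_nonneg _ _ _ _ _)
    (fun _ v => om_le_one hB0 hQ _ _)
    (fun j i => Nat.mul_pos hNpos (hA.2.1 j i))
    (fun y => cov_mix hn hA hQ hB0 (Dvd.intro _ rfl) hNpos hNL hLf (N * B) y)
  have h1 : (t : ℝ) ≤ t' := by
    refine le_trans ?_ ht'
    rw [sum_congr rfl (fun j _ => sum_om hB0 hQ N (N * B) hT)]
    rw [sum_const, card_univ, Fintype.card_fin, nsmul_eq_mul, le_div_iff₀ hκ0]
    have h2 : (1 - η) * m * X ≤ (1 - η) * m * N := mul_le_mul_of_nonneg_left hNX (by positivity)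
    have h3 : (1 - η) * m * X = t * κ := by
      rw [hX]
      field_simp
    linarith
  have h2 : t ≤ t' := by exact_mod_cast h1
  have h3 := s_le' ht hn h2 A' hA' (hB' (N * S) (fun j i => Nat.mul_le_mul_left _ (hAs j i)))
  have h4 : (s t n : ℝ) ≤ N * S + N * B + L := by exact_mod_cast h3
  have h5 : (0 : ℝ) ≤ (S : ℝ) + B := by positivity
  have h6 : (N : ℝ) * (S + B) ≤ (X + n.factorial * (n * L + 2)) * (S + B) :=
    mul_le_mul_of_nonneg_right hNle h5
  have h7 : X * ((S : ℝ) + B) = κ / (1 - η) * (((S : ℝ) + B) / m) * t := by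
    rw [hX]
    field_simp
  nlinarith

theorem limit_exists {n : ℕ} (hn : 1 ≤ n) :
    ∃ lam : ℝ, Tendsto (fun t : ℕ => (s t n : ℝ) / t) atTop (𝓝 lam) := by
  set x : ℕ → ℝ := fun t => (s t n : ℝ) / t with hx
  have hx0 : ∀ t, 0 ≤ x t := fun t => by
    show 0 ≤ (s t n : ℝ) / t
    positivity
  obtain ⟨C, hC⟩ := upper hn (η := 1 / 2) (by norm_num) (by norm_num)
  have hxb : ∀ᶠ t in atTop, x t ≤ cn n / (1 - 1 / 2) + |C| := by
    filter_upwards [eventually_ge_atTop 1] with t ht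
    have htr : (1 : ℝ) ≤ t := by exact_mod_cast ht
    show (s t n : ℝ) / t ≤ _
    rw [div_le_iff₀ (by linarith)]
    have h1 := hC t ht
    have h2 : C ≤ |C| * t := by
      have h3 := le_abs_self C
      have h4 := abs_nonneg C
      nlinarith
    linarith
  have hbu : IsBoundedUnder (· ≤ ·) atTop x := ⟨_, hxb⟩
  have hbl : IsBoundedUnder (· ≥ ·) atTop x := ⟨0, by
    rw [eventually_map]
    exact Eventually.of_forall hx0⟩
  have hcbu : IsCoboundedUnder (· ≤ ·) atTop x := hbl.isCoboundedUnder_le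
  have hcbl : IsCoboundedUnder (· ≥ ·) atTop x := hbu.isCoboundedUnder_ge
  set lam := liminf x atTop with hlam
  have hlam0 : 0 ≤ lam := le_liminf_of_le hcbl (Eventually.of_forall hx0)
  have key : ∀ ε : ℝ, 0 < ε → limsup x atTop ≤ (1 + ε) * (lam + 2 * ε) := by
    intro ε hε
    -- choose parameters
    obtain ⟨B0, hB0⟩ := exists_nat_ge (4 / ε + 1)
    obtain ⟨Q, hQ⟩ := exists_nat_ge (8 * n / ε + 1)
    have hnr : (1 : ℝ) ≤ n := by exact_mod_cast hn
    have hB0r : (1 : ℝ) ≤ B0 := by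
      have : 0 < 4 / ε := by positivity
      linarith
    have hQr : (1 : ℝ) ≤ Q := by
      have : 0 < 8 * n / ε := by positivity
      linarith
    have hB01 : 1 ≤ B0 := by exact_mod_cast hB0r
    have hQ1 : 1 ≤ Q := by exact_mod_cast hQr
    have hκ : 1 + 1 / (B0 : ℝ) + 2 * n / Q ≤ 1 + ε / 2 := by
      have h1 : 1 / (B0 : ℝ) ≤ ε / 4 := by
        rw [div_le_iff₀ (by linarith)]
        have h2 : 4 / ε ≤ B0 := by linarith
        rw [div_le_iff₀ hε] at h2
        linarith
      have h2 : 2 * n / (Q : ℝ) ≤ ε / 4 := by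
        rw [div_le_iff₀ (by linarith)]
        have h3 : 8 * n / ε ≤ Q := by linarith
        rw [div_le_iff₀ hε] at h3
        linarith
      linarith
    set κ : ℝ := 1 + 1 / (B0 : ℝ) + 2 * n / Q with hκd
    have hκ0 : 0 < κ := by positivity
    -- η with κ / (1 - η) ≤ 1 + ε
    set η : ℝ := ε / (2 * (1 + ε)) with hη
    have hη0 : 0 < η := by positivity
    have hη1 : η < 1 := by
      rw [hη, div_lt_one (by positivity)]
      linarith
    have hκη : κ / (1 - η) ≤ 1 + ε := by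
      rw [div_le_iff₀ (by linarith)]
      have h1 : (1 + ε) * (1 - η) = 1 + ε / 2 := by
        rw [hη]
        field_simp
        ring
      rw [h1]
      exact hκ
    -- choose m
    have hfreq : ∃ᶠ m in atTop, x m < lam + ε :=
      frequently_lt_of_liminf_lt hcbl (by linarith)
    have hev : ∀ᶠ m : ℕ in atTop, 1 ≤ m ∧ (Bm n Q B0 : ℝ) / m ≤ ε := by
      have h1 : Tendsto (fun m : ℕ => (Bm n Q B0 : ℝ) / m) atTop (𝓝 0) :=
        tendsto_const_div_atTop_nhds_zero_nat _
      filter_upwards [eventually_ge_atTop 1, h1.eventually (gt_mem_nhds hε)] with m hm hm2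
      exact ⟨hm, hm2.le⟩
    obtain ⟨m, hm, hm1, hm2⟩ := (hfreq.and_eventually hev).exists
    obtain ⟨C', hC'⟩ := step_up hn hm1 hQ1 hB01 hη0 hη1
    have hmr : (0 : ℝ) < m := by exact_mod_cast hm1
    have hcoef : κ / (1 - η) * (((s m n : ℝ) + Bm n Q B0) / m) ≤ (1 + ε) * (lam + 2 * ε) := by
      have h1 : ((s m n : ℝ) + Bm n Q B0) / m ≤ lam + 2 * ε := by
        rw [add_div]
        have h2 : (s m n : ℝ) / m < lam + ε := hm
        linarith
      exact mul_le_mul hκη h1 (by positivity) (by positivity)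
    have hlim : Tendsto (fun t : ℕ => (1 + ε) * (lam + 2 * ε) + |C'| / t) atTop
        (𝓝 ((1 + ε) * (lam + 2 * ε) + 0)) :=
      tendsto_const_nhds.add (tendsto_const_div_atTop_nhds_zero_nat _)
    rw [add_zero] at hlim
    have hle : ∀ᶠ t in atTop, x t ≤ (1 + ε) * (lam + 2 * ε) + |C'| / t := by
      filter_upwards [eventually_ge_atTop 1] with t ht
      have htr : (0 : ℝ) < t := by exact_mod_cast ht
      show (s t n : ℝ) / t ≤ _
      rw [div_le_iff₀ htr, add_mul, div_mul_cancel₀ _ htr.ne']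
      have h1 := hC' t ht
      have h2 := mul_le_mul_of_nonneg_right hcoef htr.le
      have h3 := le_abs_self C'
      linarith
    calc limsup x atTop ≤ limsup (fun t : ℕ => (1 + ε) * (lam + 2 * ε) + |C'| / t) atTop :=
          limsup_le_limsup hle hcbu hlim.isBoundedUnder_le
      _ = _ := hlim.limsup_eq
  have hls : limsup x atTop ≤ lam := by
    have h1 : Tendsto (fun ε : ℝ => (1 + ε) * (lam + 2 * ε)) (𝓝[>] 0) (𝓝 ((1 + 0) * (lam + 2 * 0))) := by
      apply Tendsto.mono_left _ nhdsWithin_le_nhds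
      apply Continuous.tendsto
      fun_prop
    have h2 : (1 + 0) * (lam + 2 * 0) = lam := by ring
    rw [h2] at h1
    apply ge_of_tendsto h1
    filter_upwards [self_mem_nhdsWithin] with ε hε
    exact key ε hε
  exact ⟨lam, tendsto_of_le_liminf_of_limsup_le le_rfl hls hbu hbl⟩

end Pool.Agent.Lib.MP_21e00f_co
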