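import Pool.Agent.Lib.MP_21e00f_co.Flat

/-!
MP_21e00f_co: a family for one value of `t` gives, by scaling, shifting and adding noise,
weighted families with coverage close to `1`.
-/

set_option autoImplicit false

open Finset

namespace Pool.Agent.Lib.MP_21e00f_co

/-- scales -/
def Bf (n B0 : ℕ) (e : Fin n → ℕ) : ℕ := B0 * ∏ i : Fin n, ((i : ℕ) + 1) ^ e i

lemma Bf_ge {n B0 : ℕ} (e : Fin n → ℕ) : B0 ≤ Bf n B0 e := by
  unfold Bf
  apply Nat.le_mul_of_pos_right
  exact prod_pos (fun i _ => by positivity)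

lemma Bf_pos {n B0 : ℕ} (hB : 1 ≤ B0) (e : Fin n → ℕ) : 0 < Bf n B0 e :=
  lt_of_lt_of_le hB (Bf_ge e)

lemma Bf_update {n B0 : ℕ} (e : Fin n → ℕ) (i0 : Fin n) :
    Bf n B0 (Function.update e i0 (e i0 + 1)) = ((i0 : ℕ) + 1) * Bf n B0 e := by
  unfold Bf
  rw [← mul_prod_erase univ _ (mem_univ i0), ← mul_prod_erase univ
    (fun i : Fin n => ((i : ℕ) + 1) ^ e i) (mem_univ i0)]
  have h1 : ∏ i ∈ univ.erase i0, ((i : ℕ) + 1) ^ (Function.update e i0 (e i0 + 1)) i =
      ∏ i ∈ univ.erase i0, ((i : ℕ) + 1) ^ e i := by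
    apply prod_congr rfl
    intro i hi
    rw [Function.update_of_ne (mem_erase.mp hi).1]
  rw [h1, Function.update_self, pow_succ]
  ring

/-- the index `|I| - 1` -/
def idx {n : ℕ} (hn : 1 ≤ n) (I : Finset (Fin n)) : Fin n :=
  ⟨I.card - 1, by
    have := card_le_univ I
    rw [Fintype.card_fin] at this
    omega⟩

lemma idx_val {n : ℕ} (hn : 1 ≤ n) {I : Finset (Fin n)} (hI : I.Nonempty) :
    ((idx hn I : Fin n) : ℕ) + 1 = I.card := by
  have := card_pos.mpr hI
  unfold idx
  simp only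
  omega

lemma card_last {n Q : ℕ} (i0 : Fin n) :
    ((box n Q).filter (fun e => e i0 + 1 = Q)).card ≤ Q ^ (n - 1) := by
  rw [← card_face n Q i0]
  apply card_le_card_of_injOn (fun e => Function.update e i0 0)
  · intro e he
    rw [mem_coe, mem_filter] at he
    exact update_mem_face he.1
  · intro e he e' he' h
    rw [mem_coe, mem_filter] at he he'
    have h1 := eq_of_update h
    ext j
    by_cases hj : j = i0
    · rw [hj]
      omega
    · exact h1 j hj

/-- rearrangement of the scales -/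
lemma scale_sum {n Q B0 : ℕ} (hn : 1 ≤ n) (hB0 : 1 ≤ B0)
    (g : Finset (Fin n) → ℕ → ℝ) (hg : ∀ I D, 0 ≤ g I D)
    (hG : ∀ D, 1 ≤ D → ∑ I ∈ (univ : Finset (Finset (Fin n))).erase ∅, g I D ≤ 1 + 1 / (D : ℝ)) :
    ∑ e ∈ box n Q, ∑ I ∈ (univ : Finset (Finset (Fin n))).erase ∅, g I (I.card * Bf n B0 e) ≤
      (Q : ℝ) ^ n * (1 + 1 / B0) + 2 * n * (Q : ℝ) ^ (n - 1) := by
  classical
  set P := (univ : Finset (Finset (Fin n))).erase ∅ with hP
  have hPne : ∀ I ∈ P, I.Nonempty := fun I hI =>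
    nonempty_iff_ne_empty.mpr (mem_erase.mp hI).1
  have hB0r : (0 : ℝ) < B0 := by exact_mod_cast hB0
  -- for one `I`
  have h1 : ∀ I ∈ P, ∑ e ∈ box n Q, g I (I.card * Bf n B0 e) ≤
      ∑ e ∈ box n Q, g I (Bf n B0 e) +
      ∑ e ∈ (box n Q).filter (fun e => e (idx hn I) + 1 = Q), g I (I.card * Bf n B0 e) := by
    intro I hI
    rw [← sum_filter_add_sum_filter_not (box n Q) (fun e => e (idx hn I) + 1 = Q)
      (fun e => g I (I.card * Bf n B0 e)), add_comm]
    apply add_le_add _ le_rfl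
    set F := (box n Q).filter (fun e => ¬ e (idx hn I) + 1 = Q) with hF
    have h2 : ∀ e ∈ F, g I (I.card * Bf n B0 e) =
        g I (Bf n B0 (Function.update e (idx hn I) (e (idx hn I) + 1))) := by
      intro e _
      rw [Bf_update, idx_val hn (hPne I hI)]
    rw [sum_congr rfl h2]
    have hinj : Set.InjOn (fun e : Fin n → ℕ =>
        Function.update e (idx hn I) (e (idx hn I) + 1)) F := by
      intro e _ e' _ h
      ext j
      by_cases hj : j = idx hn I
      · have h3 := congrFun h (idx hn I)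
        simp only [Function.update_self] at h3
        rw [hj]
        omega
      · have h3 := congrFun h j
        simp only [Function.update_of_ne hj] at h3
        exact h3
    rw [← sum_image (f := fun e => g I (Bf n B0 e)) hinj]
    apply sum_le_sum_of_subset_of_nonneg
    · intro e' he'
      rw [mem_image] at he'
      obtain ⟨e, he, rfl⟩ := he'
      rw [hF, mem_filter] at he
      rw [mem_box]
      intro j
      by_cases hj : j = idx hn I
      · rw [hj, Function.update_self]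
        have h4 := mem_box.mp he.1 (idx hn I)
        omega
      · rw [Function.update_of_ne hj]
        exact mem_box.mp he.1 j
    · intro e _ _
      exact hg _ _
  rw [sum_comm]
  refine (sum_le_sum h1).trans ?_
  rw [sum_add_distrib]
  have h2 : ∑ I ∈ P, ∑ e ∈ box n Q, g I (Bf n B0 e) ≤ (Q : ℝ) ^ n * (1 + 1 / B0) := by
    rw [sum_comm]
    have h3 : ∀ e ∈ box n Q, ∑ I ∈ P, g I (Bf n B0 e) ≤ 1 + 1 / (B0 : ℝ) := by
      intro e _
      refine (hG _ (Bf_pos hB0 e)).trans ?_
      have h4 : 1 / (Bf n B0 e : ℝ) ≤ 1 / (B0 : ℝ) := by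
        apply one_div_le_one_div_of_le hB0r
        exact_mod_cast Bf_ge e
      linarith
    refine (sum_le_sum h3).trans ?_
    rw [sum_const, card_box, nsmul_eq_mul]
    push_cast
    exact le_rfl
  have h3 : ∑ I ∈ P, ∑ e ∈ (box n Q).filter (fun e => e (idx hn I) + 1 = Q),
      g I (I.card * Bf n B0 e) ≤ 2 * n * (Q : ℝ) ^ (n - 1) := by
    have h4 : ∑ I ∈ P, ∑ e ∈ (box n Q).filter (fun e => e (idx hn I) + 1 = Q),
        g I (I.card * Bf n B0 e) =
        ∑ i0 : Fin n, ∑ e ∈ (box n Q).filter (fun e => e i0 + 1 = Q),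
          ∑ I ∈ P.filter (fun I => idx hn I = i0), g I (((i0 : ℕ) + 1) * Bf n B0 e) := by
      rw [← sum_fiberwise_of_maps_to (s := P) (t := univ) (g := fun I => idx hn I)
        (fun I _ => mem_univ _)]
      apply sum_congr rfl
      intro i0 _
      rw [sum_comm]
      apply sum_congr rfl
      intro I hI
      rw [mem_filter] at hI
      obtain ⟨hI, rfl⟩ := hI
      rw [idx_val hn (hPne I hI)]
    rw [h4]
    have h5 : ∀ i0 ∈ (univ : Finset (Fin n)),
        ∑ e ∈ (box n Q).filter (fun e => e i0 + 1 = Q),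
          ∑ I ∈ P.filter (fun I => idx hn I = i0), g I (((i0 : ℕ) + 1) * Bf n B0 e) ≤
        2 * (Q : ℝ) ^ (n - 1) := by
      intro i0 _
      have h6 : ∀ e ∈ (box n Q).filter (fun e => e i0 + 1 = Q),
          ∑ I ∈ P.filter (fun I => idx hn I = i0), g I (((i0 : ℕ) + 1) * Bf n B0 e) ≤ 2 := by
        intro e _
        have h7 : 1 ≤ ((i0 : ℕ) + 1) * Bf n B0 e := Nat.mul_pos (Nat.succ_pos _) (Bf_pos hB0 e)
        have h8 := hG _ h7
        have h9 : ∑ I ∈ P.filter (fun I => idx hn I = i0), g I (((i0 : ℕ) + 1) * Bf n B0 e) ≤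
            ∑ I ∈ P, g I (((i0 : ℕ) + 1) * Bf n B0 e) :=
          sum_le_sum_of_subset_of_nonneg (filter_subset _ _) (fun I _ _ => hg _ _)
        have h10 : 1 / (((((i0 : ℕ) + 1) * Bf n B0 e : ℕ)) : ℝ) ≤ 1 := by
          rw [div_le_one]
          · exact_mod_cast h7
          · exact_mod_cast h7
        linarith
      refine (sum_le_sum h6).trans ?_
      rw [sum_const, nsmul_eq_mul]
      have h7 : (((box n Q).filter (fun e => e i0 + 1 = Q)).card : ℝ) ≤ (Q : ℝ) ^ (n - 1) := by
        exact_mod_cast card_last i0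
      linarith
    refine (sum_le_sum h5).trans ?_
    rw [sum_const, card_univ, Fintype.card_fin, nsmul_eq_mul]
    linarith
  linarith

/-- the weights of the shifts -/
noncomputable def om (n B0 Q N : ℕ) (v : ℕ) : ℝ :=
  (1 / (Q : ℝ) ^ n) * ∑ e ∈ box n Q, if v < N * Bf n B0 e then 1 / (Bf n B0 e : ℝ) else 0

lemma om_nonneg (n B0 Q N v : ℕ) : 0 ≤ om n B0 Q N v := by
  unfold om
  apply mul_nonneg (by positivity)
  apply sum_nonneg
  intro e _
  split_ifs
  · positivity
  · exact le_rfl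

lemma om_le_one {n B0 Q : ℕ} (hB0 : 1 ≤ B0) (hQ : 1 ≤ Q) (N v : ℕ) : om n B0 Q N v ≤ 1 := by
  unfold om
  have hQr : (0 : ℝ) < Q := by exact_mod_cast hQ
  have h1 : ∑ e ∈ box n Q, (if v < N * Bf n B0 e then 1 / (Bf n B0 e : ℝ) else 0) ≤
      (Q : ℝ) ^ n := by
    calc ∑ e ∈ box n Q, (if v < N * Bf n B0 e then 1 / (Bf n B0 e : ℝ) else 0)
        ≤ ∑ _e ∈ box n Q, (1 : ℝ) := by
          apply sum_le_sum
          intro e _
          split_ifs
          · rw [div_le_one]
            · exact_mod_cast Bf_pos hB0 e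
            · exact_mod_cast Bf_pos hB0 e
          · exact zero_le_one
      _ = (Q : ℝ) ^ n := by
          rw [sum_const, card_box, nsmul_eq_mul, mul_one]
          push_cast
          rfl
  have h2 : 0 < (Q : ℝ) ^ n := by positivity
  calc (1 / (Q : ℝ) ^ n) * ∑ e ∈ box n Q, (if v < N * Bf n B0 e then 1 / (Bf n B0 e : ℝ) else 0)
      ≤ (1 / (Q : ℝ) ^ n) * (Q : ℝ) ^ n := mul_le_mul_of_nonneg_left h1 (by positivity)
    _ = 1 := by field_simp

lemma sum_om {n B0 Q : ℕ} (hB0 : 1 ≤ B0) (hQ : 1 ≤ Q) (N T : ℕ)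
    (hT : ∀ e ∈ box n Q, N * Bf n B0 e ≤ T) : ∑ v ∈ range T, om n B0 Q N v = N := by
  unfold om
  have hQr : (0 : ℝ) < Q := by exact_mod_cast hQ
  rw [← mul_sum, sum_comm]
  have h1 : ∀ e ∈ box n Q, ∑ v ∈ range T, (if v < N * Bf n B0 e then 1 / (Bf n B0 e : ℝ) else 0)
      = N := by
    intro e he
    rw [← sum_filter]
    have h2 : (range T).filter (fun v => v < N * Bf n B0 e) = range (N * Bf n B0 e) := by
      ext v
      rw [mem_filter, mem_range, mem_range]
      have := hT e he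
      omega
    rw [h2, sum_const, card_range, nsmul_eq_mul]
    have h3 : (0 : ℝ) < Bf n B0 e := by exact_mod_cast Bf_pos hB0 e
    push_cast
    field_simp
  rw [sum_congr rfl h1, sum_const, card_box, nsmul_eq_mul]
  push_cast
  field_simp

/-- number of sequences whose `I`-sum lies in the window -/
def J {m n : ℕ} (A : Fin m → Fin n → ℕ) (Y : ℕ) (I : Finset (Fin n)) (D : ℕ) : Finset (Fin m) :=
  univ.filter (fun j => ∑ i ∈ I, A j i ≤ Y ∧ Y ≤ ∑ i ∈ I, A j i + D)

lemma sum_J {m n : ℕ} {A : Fin m → Fin n → ℕ} (hA : IsFamily m n A) (Y D : ℕ) :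
    ∑ I ∈ (univ : Finset (Finset (Fin n))).erase ∅, (J A Y I D).card ≤ D + 1 := by
  classical
  obtain ⟨_, _, hsd, hc⟩ := hA
  have h1 : ∑ I ∈ (univ : Finset (Finset (Fin n))).erase ∅, (J A Y I D).card =
      (((univ : Finset (Finset (Fin n))).erase ∅).sigma (fun I => J A Y I D)).card := by
    rw [card_sigma]
  rw [h1]
  have h2 : (Icc (Y - D) Y).card ≤ D + 1 := by
    rw [Nat.card_Icc]
    omega
  refine le_trans ?_ h2
  apply card_le_card_of_injOn (fun x => ∑ i ∈ x.1, A x.2 i)
  · rintro ⟨I, j⟩ hx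
    rw [mem_coe, mem_sigma] at hx
    obtain ⟨_, hx⟩ := hx
    unfold J at hx
    rw [mem_filter] at hx
    rw [mem_coe, mem_Icc]
    have h3 := hx.2
    simp only at h3 ⊢
    omega
  · rintro ⟨I, j⟩ hx ⟨I', j'⟩ hx' h
    rw [mem_coe, mem_sigma] at hx hx'
    have hI : I.Nonempty := nonempty_iff_ne_empty.mpr (mem_erase.mp hx.1).1
    have hI' : I'.Nonempty := nonempty_iff_ne_empty.mpr (mem_erase.mp hx'.1).1
    by_cases hj : j = j'
    · subst hj
      have : I = I' := hsd j I I' h
      rw [this]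
    · exact absurd h (hc j j' hj I I' hI hI')

/-- number of indices with a given `I`-sum and bounded shift -/
lemma count_x {m n L N : ℕ} (A : Fin m → Fin n → ℕ) (hNf : n.factorial ∣ N) (hN : 0 < N)
    (hNL : n * L ≤ N) (hLf : n.factorial ∣ L) (T y B : ℕ) {I : Finset (Fin n)} (hI : I.Nonempty) :
    (((E0 m n T L).filter (fun x => ∑ i ∈ I, sq (fun j i => N * A j i) x i = y ∧
      x.2.1 < N * B)).card : ℝ) ≤ (J A (y / N) I (I.card * B)).card * ((L : ℝ) ^ n / I.card) := by
  classical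
  have hk : 0 < I.card := card_pos.mpr hI
  have hkn : I.card ≤ n := by
    have := card_le_univ I
    rwa [Fintype.card_fin] at this
  have hkN : I.card ∣ N := card_dvd hNf hI
  set F := (E0 m n T L).filter (fun x => ∑ i ∈ I, sq (fun j i => N * A j i) x i = y ∧
      x.2.1 < N * B) with hF
  have hsum : ∀ x ∈ F, y = N * ∑ i ∈ I, A x.1 i + I.card * x.2.1 + ∑ i ∈ I, x.2.2 i := by
    intro x hx
    have h1 := (mem_filter.mp hx).2.1
    unfold sq at h1
    rw [sum_shift, ← mul_sum] at h1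
    exact h1.symm
  have hJ : ∀ x ∈ F, x.1 ∈ J A (y / N) I (I.card * B) := by
    intro x hx
    have h1 := hsum x hx
    have h2 := (mem_filter.mp hx).2.2
    have h3 := (mem_filter.mp hx).1
    unfold E0 at h3
    rw [mem_product, mem_product] at h3
    have h4 : ∑ i ∈ I, x.2.2 i < N := by
      by_cases hL0 : L = 0
      · subst hL0
        have := mem_box.mp h3.2.2 hI.choose
        omega
      · have h5 : ∑ i ∈ I, x.2.2 i ≤ I.card * (L - 1) := by
          have : ∀ i ∈ I, x.2.2 i ≤ L - 1 := by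
            intro i _
            have := mem_box.mp h3.2.2 i
            omega
          have h6 := sum_le_card_nsmul I (fun i => x.2.2 i) (L - 1) this
          simpa using h6
        have h6 : I.card * (L - 1) < n * L := by
          calc I.card * (L - 1) ≤ n * (L - 1) := Nat.mul_le_mul_right _ hkn
            _ < n * L := by
              apply Nat.mul_lt_mul_of_pos_left
              · omega
              · omega
        omega
    unfold J
    rw [mem_filter]
    refine ⟨mem_univ _, ?_, ?_⟩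
    · rw [Nat.le_div_iff_mul_le hN, mul_comm]
      omega
    · have h5 : y < N * (∑ i ∈ I, A x.1 i + I.card * B + 1) := by
        have h6 : I.card * x.2.1 ≤ I.card * (N * B) := Nat.mul_le_mul_left _ h2.le
        calc y = N * ∑ i ∈ I, A x.1 i + I.card * x.2.1 + ∑ i ∈ I, x.2.2 i := h1
          _ < N * ∑ i ∈ I, A x.1 i + I.card * (N * B) + N := by omega
          _ = _ := by ring
      have h6 : y / N < ∑ i ∈ I, A x.1 i + I.card * B + 1 := by
        rw [Nat.div_lt_iff_lt_mul hN, mul_comm]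
        exact h5
      omega
  have h1 : F.card = ∑ j ∈ J A (y / N) I (I.card * B), (F.filter (fun x => x.1 = j)).card :=
    card_eq_sum_card_fiberwise hJ
  rw [h1]
  push_cast
  have h2 : ∀ j ∈ J A (y / N) I (I.card * B), ((F.filter (fun x => x.1 = j)).card : ℝ) ≤
      (L : ℝ) ^ n / I.card := by
    intro j _
    have hinj : Set.InjOn (fun x : Idx m n => x.2.2) (F.filter (fun x => x.1 = j)) := by
      rintro ⟨j1, v, r⟩ hx ⟨j2, v', r'⟩ hx' h
      rw [mem_coe, mem_filter] at hx hx'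
      have h3 := hsum _ hx.1
      have h4 := hsum _ hx'.1
      have h5 : r = r' := h
      have h6 : j1 = j := hx.2
      have h7 : j2 = j := hx'.2
      subst h5 h6 h7
      have h8 : I.card * v = I.card * v' := by
        simp only at h3 h4
        omega
      have h9 : v = v' := Nat.eq_of_mul_eq_mul_left hk h8
      rw [h9]
    have h3 := count_mod_real hLf hI y ((F.filter (fun x => x.1 = j)).image (fun x => x.2.2))
      (by
        intro r hr
        rw [mem_image] at hr
        obtain ⟨x, hx, rfl⟩ := hr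
        have h2 := (mem_filter.mp (mem_filter.mp hx).1).1
        unfold E0 at h2
        rw [mem_product, mem_product] at h2
        exact h2.2.2)
      (by
        intro r hr
        rw [mem_image] at hr
        obtain ⟨x, hx, rfl⟩ := hr
        have h2 := hsum x (mem_filter.mp hx).1
        obtain ⟨q, hq⟩ := hkN
        have h4 : y = ∑ i ∈ I, x.2.2 i + I.card * (q * ∑ i ∈ I, A x.1 i + x.2.1) := by
          rw [h2, hq]
          ring
        rw [h4]
        simp)
    rw [card_image_of_injOn hinj] at h3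
    exact h3
  refine (sum_le_sum h2).trans ?_
  rw [sum_const, nsmul_eq_mul]

lemma cov_mix {m n L N Q B0 : ℕ} (hn : 1 ≤ n) {A : Fin m → Fin n → ℕ} (hA : IsFamily m n A)
    (hQ : 1 ≤ Q) (hB0 : 1 ≤ B0)
    (hNf : n.factorial ∣ N) (hN : 0 < N)
    (hNL : n * L ≤ N) (hLf : n.factorial ∣ L) (T y : ℕ) :
    cov (fun j i => N * A j i) (fun _ v => om n B0 Q N v) T L y ≤
      (1 + 1 / B0 + 2 * n / Q) * (L : ℝ) ^ n := by
  classical
  have hQr : (0 : ℝ) < Q := by exact_mod_cast hQ
  have hQn : (0 : ℝ) < (Q : ℝ) ^ n := by positivity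
  set P := (univ : Finset (Finset (Fin n))).erase ∅ with hP
  have hPne : ∀ I ∈ P, I.Nonempty := fun I hI =>
    nonempty_iff_ne_empty.mpr (mem_erase.mp hI).1
  set g : Finset (Fin n) → ℕ → ℝ := fun I D => ((J A (y / N) I D).card : ℝ) / D with hg
  have hg0 : ∀ I D, 0 ≤ g I D := fun I D => by
    show 0 ≤ ((J A (y / N) I D).card : ℝ) / D
    positivity
  have hG : ∀ D, 1 ≤ D → ∑ I ∈ P, g I D ≤ 1 + 1 / (D : ℝ) := by
    intro D hD
    have hDr : (0 : ℝ) < D := by exact_mod_cast hD
    have h1 : ∑ I ∈ P, g I D = ((∑ I ∈ P, (J A (y / N) I D).card : ℕ) : ℝ) / D := by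
      rw [Nat.cast_sum, sum_div]
    rw [h1, div_le_iff₀ hDr]
    have h2 : ((∑ I ∈ P, (J A (y / N) I D).card : ℕ) : ℝ) ≤ D + 1 := by
      exact_mod_cast sum_J hA (y / N) D
    have h3 : (1 + 1 / (D : ℝ)) * D = D + 1 := by field_simp
    linarith
  have hss := scale_sum (Q := Q) hn hB0 g hg0 hG
  -- coverage as a sum over scales
  have h1 : cov (fun j i => N * A j i) (fun _ v => om n B0 Q N v) T L y =
      (1 / (Q : ℝ) ^ n) * ∑ e ∈ box n Q, ∑ I ∈ P,
        (1 / (Bf n B0 e : ℝ)) * (((E0 m n T L).filter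
          (fun x => ∑ i ∈ I, sq (fun j i => N * A j i) x i = y ∧
          x.2.1 < N * Bf n B0 e)).card : ℝ) := by
    unfold cov om
    rw [sum_comm (s := box n Q), mul_sum]
    apply sum_congr rfl
    intro I _
    rw [← mul_sum]
    congr 1
    rw [sum_comm]
    apply sum_congr rfl
    intro e _
    rw [← sum_filter, filter_filter, sum_const, nsmul_eq_mul, mul_comm]
  rw [h1]
  have h2 : ∑ e ∈ box n Q, ∑ I ∈ P,
        (1 / (Bf n B0 e : ℝ)) * (((E0 m n T L).filter
          (fun x => ∑ i ∈ I, sq (fun j i => N * A j i) x i = y ∧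
          x.2.1 < N * Bf n B0 e)).card : ℝ) ≤
      ∑ e ∈ box n Q, ∑ I ∈ P, (L : ℝ) ^ n * g I (I.card * Bf n B0 e) := by
    apply sum_le_sum
    intro e _
    apply sum_le_sum
    intro I hI
    have h3 := count_x A hNf hN hNL hLf T y (Bf n B0 e) (hPne I hI)
    have hB : (0 : ℝ) < Bf n B0 e := by exact_mod_cast Bf_pos hB0 e
    have hk : (0 : ℝ) < I.card := by exact_mod_cast card_pos.mpr (hPne I hI)
    calc (1 / (Bf n B0 e : ℝ)) * _ ≤ (1 / (Bf n B0 e : ℝ)) *
          ((J A (y / N) I (I.card * Bf n B0 e)).card * ((L : ℝ) ^ n / I.card)) :=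
          mul_le_mul_of_nonneg_left h3 (by positivity)
      _ = (L : ℝ) ^ n * g I (I.card * Bf n B0 e) := by
          show _ = (L : ℝ) ^ n * (((J A (y / N) I (I.card * Bf n B0 e)).card : ℝ) /
            ((I.card * Bf n B0 e : ℕ) : ℝ))
          push_cast
          field_simp
  have h3 : ∑ e ∈ box n Q, ∑ I ∈ P, (L : ℝ) ^ n * g I (I.card * Bf n B0 e) =
      (L : ℝ) ^ n * ∑ e ∈ box n Q, ∑ I ∈ P, g I (I.card * Bf n B0 e) := by
    rw [mul_sum]
    apply sum_congr rfl
    intro e _
    rw [mul_sum]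
  rw [h3] at h2
  have hLn : (0 : ℝ) ≤ (L : ℝ) ^ n := by positivity
  have h4 := mul_le_mul_of_nonneg_left hss hLn
  have h5 : (1 / (Q : ℝ) ^ n) * ((L : ℝ) ^ n *
      ((Q : ℝ) ^ n * (1 + 1 / B0) + 2 * n * (Q : ℝ) ^ (n - 1))) =
      (1 + 1 / B0 + 2 * n / Q) * (L : ℝ) ^ n := by
    have hpow : (Q : ℝ) ^ n = Q * (Q : ℝ) ^ (n - 1) := by
      rw [← pow_succ', Nat.sub_add_cancel hn]
    rw [hpow]
    field_simp
  rw [← h5]
  exact mul_le_mul_of_nonneg_left (h2.trans h4) (by positivity)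

end Pool.Agent.Lib.MP_21e00f_co
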