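import Pool.Agent.Lib.MP_21e00f_co.Prob

/-!
MP_21e00f_co: a weighted nibble theorem. A fractional matching `w` of a finite hypergraph with
edges of at most `K` vertices and with small codegrees (measured by `w`) can be rounded: there is
a matching with at least `(1 - ε) * ∑ w` edges.
-/

set_option autoImplicit false
set_option linter.unusedSectionVars false

open Finset

namespace Pool.Agent.Lib.MP_21e00f_co

variable {ι V : Type*} [DecidableEq ι] [DecidableEq V]

/-- the edges that meet `T` -/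
def hit (e : ι → Finset V) (E : Finset ι) (T : Finset V) : Finset ι :=
  E.filter (fun i => ¬ Disjoint (e i) T)

/-- a fractional matching with edges of at most `K` vertices and codegrees at most `δ` -/
structure Good (e : ι → Finset V) (E : Finset ι) (w : ι → ℝ) (K : ℕ) (δ : ℝ) : Prop where
  nonneg : ∀ i ∈ E, 0 ≤ w i
  small : ∀ i ∈ E, w i ≤ δ
  card : ∀ i ∈ E, (e i).card ≤ K
  nonempty : ∀ i ∈ E, (e i).Nonempty
  deg : ∀ v, ∑ i ∈ E with v ∈ e i, w i ≤ 1
  codeg : ∀ u v, u ≠ v → ∑ i ∈ E with (u ∈ e i ∧ v ∈ e i), w i ≤ δ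

section basic

variable {e : ι → Finset V} {E : Finset ι} {w : ι → ℝ} {K : ℕ} {δ : ℝ}

lemma mem_hit {T : Finset V} {i : ι} : i ∈ hit e E T ↔ i ∈ E ∧ ¬ Disjoint (e i) T := by
  unfold hit
  rw [mem_filter]

lemma hit_subset (T : Finset V) : hit e E T ⊆ E := filter_subset _ _

lemma hit_union (A B : Finset V) : hit e E (A ∪ B) = hit e E A ∪ hit e E B := by
  ext i
  simp only [mem_hit, mem_union, disjoint_union_right]
  tauto

lemma hit_singleton (v : V) : hit e E {v} = E.filter (fun i => v ∈ e i) := by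
  ext i
  simp only [mem_hit, mem_filter, disjoint_singleton_right, not_not]

/-- `Q T` is the probability that no chosen edge meets `T` -/
noncomputable def Q (e : ι → Finset V) (E : Finset ι) (p : ι → ℝ) (T : Finset V) : ℝ :=
  ∏ i ∈ hit e E T, (1 - p i)

lemma le_one_of_good (h : Good e E w K δ) {i : ι} (hi : i ∈ E) : w i ≤ 1 := by
  obtain ⟨v, hv⟩ := h.nonempty i hi
  refine le_trans ?_ (h.deg v)
  exact single_le_sum (f := w) (s := E.filter (fun i => v ∈ e i))
    (fun j hj => h.nonneg j (mem_filter.mp hj).1) (mem_filter.mpr ⟨hi, hv⟩)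

lemma sum_hit_le (h : Good e E w K δ) (T : Finset V) : ∑ i ∈ hit e E T, w i ≤ T.card := by
  have h1 : ∑ i ∈ hit e E T, w i ≤ ∑ v ∈ T, ∑ i ∈ E with v ∈ e i, w i := by
    have h2 : ∀ v ∈ T, ∑ i ∈ E with v ∈ e i, w i = ∑ i ∈ E, if v ∈ e i then w i else 0 := by
      intro v _
      rw [sum_filter]
    rw [sum_congr rfl h2, sum_comm]
    have h3 : ∑ i ∈ hit e E T, w i = ∑ i ∈ E, if ¬ Disjoint (e i) T then w i else 0 := by
      unfold hit
      rw [sum_filter]
    rw [h3]
    apply sum_le_sum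
    intro i hi
    have hnn : ∀ v ∈ T, (0 : ℝ) ≤ if v ∈ e i then w i else 0 := by
      intro v _
      split_ifs
      · exact h.nonneg i hi
      · exact le_rfl
    by_cases hd : Disjoint (e i) T
    · rw [if_neg (not_not.mpr hd)]
      exact sum_nonneg hnn
    · rw [if_pos hd]
      obtain ⟨v, hv, hvT⟩ := not_disjoint_iff.mp hd
      calc w i = if v ∈ e i then w i else 0 := by rw [if_pos hv]
        _ ≤ _ := single_le_sum hnn hvT
  refine h1.trans ?_
  calc ∑ v ∈ T, ∑ i ∈ E with v ∈ e i, w i ≤ ∑ _v ∈ T, (1 : ℝ) := sum_le_sum (fun v _ => h.deg v)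
    _ = T.card := by simp

variable {α : ℝ}

lemma pn (h : Good e E w K δ) (hα : 0 ≤ α) : ∀ i ∈ E, 0 ≤ α * w i :=
  fun i hi => mul_nonneg hα (h.nonneg i hi)

lemma pl (h : Good e E w K δ) (hα : 0 ≤ α) (hα1 : α ≤ 1) : ∀ i ∈ E, α * w i ≤ 1 := by
  intro i hi
  have h1 := le_one_of_good h hi
  have h2 := h.nonneg i hi
  nlinarith

lemma Q_nonneg (h : Good e E w K δ) (hα : 0 ≤ α) (hα1 : α ≤ 1) (T : Finset V) :
    0 ≤ Q e E (fun i => α * w i) T :=
  prod_nonneg' (fun i hi => pl h hα hα1 i (hit_subset T hi))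

lemma Q_le_one (h : Good e E w K δ) (hα : 0 ≤ α) (hα1 : α ≤ 1) (T : Finset V) :
    Q e E (fun i => α * w i) T ≤ 1 :=
  prod_le_one' (fun i hi => pn h hα i (hit_subset T hi))
    (fun i hi => pl h hα hα1 i (hit_subset T hi))

lemma Q_single_ge (h : Good e E w K δ) (hα : 0 ≤ α) (hα1 : α ≤ 1) (v : V) :
    1 - α * ∑ i ∈ E with v ∈ e i, w i ≤ Q e E (fun i => α * w i) {v} := by
  unfold Q
  refine le_trans ?_ (one_sub_sum_le_prod (fun i hi => pn h hα i (hit_subset _ hi))
    (fun i hi => pl h hα hα1 i (hit_subset _ hi)))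
  rw [hit_singleton, mul_sum]

lemma Q_single_ge' (h : Good e E w K δ) (hα : 0 ≤ α) (hα1 : α ≤ 1) (v : V) :
    1 - α ≤ Q e E (fun i => α * w i) {v} := by
  refine le_trans ?_ (Q_single_ge h hα hα1 v)
  have := h.deg v
  nlinarith

lemma Q_union_ge (h : Good e E w K δ) (hα : 0 ≤ α) (hα1 : α ≤ 1) (A B : Finset V) :
    Q e E (fun i => α * w i) A * Q e E (fun i => α * w i) B
      ≤ Q e E (fun i => α * w i) (A ∪ B) := by
  have h1 := prod_union_inter (s₁ := hit e E A) (s₂ := hit e E B) (f := fun i => 1 - α * w i)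
  have h2 := Q_nonneg h hα hα1 (A ∪ B)
  unfold Q at h2 ⊢
  rw [hit_union] at h2 ⊢
  rw [← h1]
  apply mul_le_of_le_one_right h2
  exact prod_le_one' (fun i hi => pn h hα i (hit_subset A (mem_inter.mp hi).1))
    (fun i hi => pl h hα hα1 i (hit_subset A (mem_inter.mp hi).1))

lemma Q_ge_pow (h : Good e E w K δ) (hα : 0 ≤ α) (hα1 : α ≤ 1) (T : Finset V) :
    (1 - α) ^ T.card ≤ Q e E (fun i => α * w i) T := by
  induction T using Finset.induction_on with
  | empty =>
    have : hit e E ∅ = ∅ := by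
      ext i
      simp [mem_hit]
    unfold Q
    rw [this]
    simp
  | insert v T hv ih =>
    rw [card_insert_of_notMem hv, pow_succ, insert_eq]
    refine le_trans ?_ (Q_union_ge h hα hα1 {v} T)
    rw [mul_comm]
    exact mul_le_mul (Q_single_ge' h hα hα1 v) ih (pow_nonneg (by linarith) _)
      (Q_nonneg h hα hα1 _)

lemma Q_ge_half (h : Good e E w K δ) (hα : 0 ≤ α) (hα1 : α ≤ 1 / 2) {i : ι} (hi : i ∈ E) :
    (1 / 2 : ℝ) ^ K ≤ Q e E (fun i => α * w i) (e i) := by
  refine le_trans ?_ (Q_ge_pow h hα (by linarith) (e i))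
  calc (1 / 2 : ℝ) ^ K ≤ (1 / 2 : ℝ) ^ (e i).card :=
        pow_le_pow_of_le_one (by norm_num) (by norm_num) (h.card i hi)
    _ ≤ (1 - α) ^ (e i).card := pow_le_pow_left₀ (by norm_num) (by linarith) _

/-- the main estimate for two edges that meet only in `v` -/
lemma Q_pair (h : Good e E w K δ) (hα : 0 ≤ α) (hα1 : α ≤ 1 / 2)
    (hδ : α * K ^ 2 * δ ≤ 1 / 2) {i j : ι} (hi : i ∈ E) (hj : j ∈ E) {v : V}
    (hvi : v ∈ e i) (hvj : v ∈ e j) (hij : ∀ u, u ≠ v → ¬ (u ∈ e i ∧ u ∈ e j)) :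
    Q e E (fun i => α * w i) (e i ∪ e j) * Q e E (fun i => α * w i) {v} ≤
      (1 + 2 * (α * K ^ 2 * δ)) *
      (Q e E (fun i => α * w i) (e i) * Q e E (fun i => α * w i) (e j)) := by
  have hα' : α ≤ 1 := by linarith
  have h1 := prod_union_inter (s₁ := hit e E (e i)) (s₂ := hit e E (e j))
    (f := fun i => 1 - α * w i)
  -- the edges that meet both
  set R := (hit e E (e i) ∩ hit e E (e j)).filter (fun l => v ∉ e l) with hR
  have hsplit : hit e E (e i) ∩ hit e E (e j) = hit e E {v} ∪ R := by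
    ext l
    simp only [hR, mem_inter, mem_union, mem_filter, mem_hit, disjoint_singleton_right, not_not]
    constructor
    · rintro ⟨⟨a, b⟩, c, d⟩
      by_cases hv : v ∈ e l
      · left; exact ⟨a, hv⟩
      · right; exact ⟨⟨⟨a, b⟩, c, d⟩, hv⟩
    · rintro (⟨a, b⟩ | ⟨a, _⟩)
      · exact ⟨⟨a, not_disjoint_iff.mpr ⟨v, b, hvi⟩⟩, a, not_disjoint_iff.mpr ⟨v, b, hvj⟩⟩
      · exact a
  have hdisj : Disjoint (hit e E {v}) R := by
    rw [disjoint_left]
    intro l hl hl2
    rw [hit_singleton, mem_filter] at hl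
    rw [hR, mem_filter] at hl2
    exact hl2.2 hl.2
  have hRE : ∀ l ∈ R, l ∈ E := fun l hl =>
    hit_subset _ (mem_inter.mp (mem_filter.mp hl).1).1
  have hRsum : ∑ l ∈ R, w l ≤ K ^ 2 * δ := by
    have h2 : ∑ l ∈ R, w l ≤ ∑ a ∈ e i, ∑ b ∈ e j, ∑ l ∈ E with (a ≠ b ∧ a ∈ e l ∧ b ∈ e l), w l := by
      have h3 : ∀ a ∈ e i, ∀ b ∈ e j, ∑ l ∈ E with (a ≠ b ∧ a ∈ e l ∧ b ∈ e l), w l
          = ∑ l ∈ E, if (a ≠ b ∧ a ∈ e l ∧ b ∈ e l) then w l else 0 := by
        intro a _ b _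
        rw [sum_filter]
      have h4 : ∑ a ∈ e i, ∑ b ∈ e j, ∑ l ∈ E with (a ≠ b ∧ a ∈ e l ∧ b ∈ e l), w l
          = ∑ l ∈ E, ∑ a ∈ e i, ∑ b ∈ e j, if (a ≠ b ∧ a ∈ e l ∧ b ∈ e l) then w l else 0 := by
        rw [sum_congr rfl (fun a ha => sum_congr rfl (fun b hb => h3 a ha b hb))]
        rw [sum_congr rfl (fun a _ => sum_comm), sum_comm]
      rw [h4]
      have h5 : ∑ l ∈ R, w l = ∑ l ∈ E, if l ∈ R then w l else 0 := by
        rw [← sum_filter]
        congr 1
        ext l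
        constructor
        · intro hl
          exact mem_filter.mpr ⟨hRE l hl, hl⟩
        · intro hl
          exact (mem_filter.mp hl).2
      rw [h5]
      apply sum_le_sum
      intro l hl
      have hnn : ∀ a ∈ e i, ∀ b ∈ e j, (0 : ℝ) ≤ if (a ≠ b ∧ a ∈ e l ∧ b ∈ e l) then w l else 0 := by
        intro a _ b _
        split_ifs
        · exact h.nonneg l hl
        · exact le_rfl
      by_cases hlR : l ∈ R
      · rw [if_pos hlR]
        rw [hR, mem_filter, mem_inter, mem_hit, mem_hit] at hlR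
        obtain ⟨⟨⟨_, ha⟩, _, hb⟩, hv⟩ := hlR
        obtain ⟨a, hal, hai⟩ := not_disjoint_iff.mp ha
        obtain ⟨b, hbl, hbj⟩ := not_disjoint_iff.mp hb
        have hab : a ≠ b := by
          intro hab
          subst hab
          have hav : a ≠ v := fun hav => hv (hav ▸ hal)
          exact hij a hav ⟨hai, hbj⟩
        calc w l = if (a ≠ b ∧ a ∈ e l ∧ b ∈ e l) then w l else 0 := by
              rw [if_pos ⟨hab, hal, hbl⟩]
          _ ≤ ∑ b ∈ e j, if (a ≠ b ∧ a ∈ e l ∧ b ∈ e l) then w l else 0 :=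
              single_le_sum (f := fun b => if (a ≠ b ∧ a ∈ e l ∧ b ∈ e l) then w l else 0)
                (hnn a hai) hbj
          _ ≤ _ := single_le_sum
                (f := fun a => ∑ b ∈ e j, if (a ≠ b ∧ a ∈ e l ∧ b ∈ e l) then w l else 0)
                (fun a ha => sum_nonneg (hnn a ha)) hai
      · rw [if_neg hlR]
        exact sum_nonneg (fun a ha => sum_nonneg (hnn a ha))
    refine h2.trans ?_
    have hδ0 : 0 ≤ δ := le_trans (h.nonneg i hi) (h.small i hi)
    calc ∑ a ∈ e i, ∑ b ∈ e j, ∑ l ∈ E with (a ≠ b ∧ a ∈ e l ∧ b ∈ e l), w l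
        ≤ ∑ _a ∈ e i, ∑ _b ∈ e j, δ := by
          apply sum_le_sum
          intro a _
          apply sum_le_sum
          intro b _
          by_cases hab : a = b
          · subst hab
            have h8 : (E.filter (fun l => a ≠ a ∧ a ∈ e l ∧ a ∈ e l)) = ∅ :=
              filter_eq_empty_iff.mpr (fun l _ hl => hl.1 rfl)
            rw [h8, sum_empty]
            exact hδ0
          · have := h.codeg a b hab
            have h6 : (E.filter (fun l => a ≠ b ∧ a ∈ e l ∧ b ∈ e l))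
                = E.filter (fun l => a ∈ e l ∧ b ∈ e l) := by
              apply filter_congr
              intro l _
              exact ⟨fun x => x.2, fun x => ⟨hab, x⟩⟩
            rw [h6]
            exact this
      _ = ((e i).card : ℝ) * ((e j).card * δ) := by
          rw [sum_const, sum_const, nsmul_eq_mul, nsmul_eq_mul]
      _ ≤ (K : ℝ) * (K * δ) := by
          have a1 : ((e i).card : ℝ) ≤ K := Nat.cast_le.mpr (h.card i hi)
          have a2 : ((e j).card : ℝ) ≤ K := Nat.cast_le.mpr (h.card j hj)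
          have a3 : ((e j).card : ℝ) * δ ≤ K * δ := mul_le_mul_of_nonneg_right a2 hδ0
          exact mul_le_mul a1 a3 (mul_nonneg (Nat.cast_nonneg _) hδ0) (Nat.cast_nonneg _)
      _ = K ^ 2 * δ := by ring
  have hRprod : 1 - α * (K ^ 2 * δ) ≤ ∏ l ∈ R, (1 - α * w l) := by
    refine le_trans ?_ (one_sub_sum_le_prod (fun i hi => pn h hα i (hRE i hi))
      (fun i hi => pl h hα hα' i (hRE i hi)))
    rw [← mul_sum]
    nlinarith
  unfold Q
  rw [hit_union, ← h1, hsplit, prod_union hdisj]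
  have hqv : 0 ≤ ∏ l ∈ hit e E {v}, (1 - α * w l) := Q_nonneg h hα hα' {v}
  have hun : 0 ≤ ∏ l ∈ hit e E (e i) ∪ hit e E (e j), (1 - α * w l) := by
    have := Q_nonneg h hα hα' (e i ∪ e j)
    unfold Q at this
    rw [hit_union] at this
    exact this
  have hx : 0 ≤ α * (K ^ 2 * δ) := by
    have hδ0 : 0 ≤ δ := le_trans (h.nonneg i hi) (h.small i hi)
    positivity
  have key : 1 ≤ (1 + 2 * (α * K ^ 2 * δ)) * ∏ l ∈ R, (1 - α * w l) := by
    have h7 : (1 + 2 * (α * K ^ 2 * δ)) * (1 - α * (K ^ 2 * δ)) ≤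
        (1 + 2 * (α * K ^ 2 * δ)) * ∏ l ∈ R, (1 - α * w l) := by
      apply mul_le_mul_of_nonneg_left hRprod
      nlinarith
    refine le_trans ?_ h7
    nlinarith
  have hab : 0 ≤ (∏ l ∈ hit e E (e i) ∪ hit e E (e j), (1 - α * w l)) *
      ∏ l ∈ hit e E {v}, (1 - α * w l) := mul_nonneg hun hqv
  calc (∏ l ∈ hit e E (e i) ∪ hit e E (e j), (1 - α * w l)) *
      ∏ l ∈ hit e E {v}, (1 - α * w l)
      ≤ ((∏ l ∈ hit e E (e i) ∪ hit e E (e j), (1 - α * w l)) *
      ∏ l ∈ hit e E {v}, (1 - α * w l)) *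
        ((1 + 2 * (α * K ^ 2 * δ)) * ∏ l ∈ R, (1 - α * w l)) :=
        le_mul_of_one_le_right hab key
    _ = _ := by ring

end basic

end Pool.Agent.Lib.MP_21e00f_co
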