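import Pool.Agent.Lib.MP_21e00f_co.Round

/-!
MP_21e00f_co: the weighted nibble theorem.
-/

set_option autoImplicit false
set_option linter.unusedSectionVars false

open Finset

namespace Pool.Agent.Lib.MP_21e00f_co

lemma Good.mono {ι V : Type*} [DecidableEq ι] [DecidableEq V] {e : ι → Finset V} {E : Finset ι}
    {w : ι → ℝ} {K : ℕ} {δ δ' : ℝ} (h : Good e E w K δ) (hd : δ ≤ δ') : Good e E w K δ' :=
  ⟨h.nonneg, fun i hi => (h.small i hi).trans hd, h.card, h.nonempty, h.deg,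
    fun u v huv => (h.codeg u v huv).trans hd⟩

lemma HasM.mono {ι V : Type*} [DecidableEq ι] [DecidableEq V] {e : ι → Finset V} {E : Finset ι}
    {x y : ℝ} (h : HasM e E y) (hxy : x ≤ y) : HasM e E x := by
  obtain ⟨M, h1, h2, h3⟩ := h
  exact ⟨M, h1, h2, hxy.trans h3⟩

/-- the constants after `r` bites -/
noncomputable def cr (A B : ℝ) : ℕ → ℝ
  | 0 => 0
  | r + 1 => A + cr A B r * (1 - B)

lemma cr_eq {A B : ℝ} (hB : B ≠ 0) (r : ℕ) : cr A B r = A / B * (1 - (1 - B) ^ r) := by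
  induction r with
  | zero => simp [cr]
  | succ r ih =>
    rw [cr, ih, pow_succ]
    field_simp
    ring

lemma cr_nonneg {A B : ℝ} (hA : 0 ≤ A) (hB : B ≤ 1) (r : ℕ) : 0 ≤ cr A B r := by
  induction r with
  | zero => simp [cr]
  | succ r ih =>
    rw [cr]
    have : 0 ≤ cr A B r * (1 - B) := mul_nonneg ih (by linarith)
    linarith

theorem rounds (K : ℕ) (α : ℝ) (hα : 0 < α) (hα1 : α ≤ 1 / 2) (hαK : α * K ≤ 1) (r : ℕ) :
    ∃ δ : ℝ, 0 < δ ∧ ∀ {ι V : Type} [DecidableEq ι] [DecidableEq V] (e : ι → Finset V)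
      (E : Finset ι) (w : ι → ℝ), Good e E w K δ →
      HasM e E (cr (α * (1 - α * K)) (α + α ^ 2) r * ∑ i ∈ E, w i) := by
  induction r with
  | zero =>
    refine ⟨1, one_pos, ?_⟩
    intro ι V _ _ e E w _
    refine ⟨∅, empty_subset _, by simp, ?_⟩
    simp [cr]
  | succ r ih =>
    obtain ⟨δ0, hδ0, ih⟩ := ih
    set A := α * (1 - α * K) with hA
    set B := α + α ^ 2 with hB
    set η := α ^ 2 with hη
    have hηpos : 0 < η := by positivity
    have hη1 : η ≤ 1 / 4 := by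
      rw [hη]
      nlinarith
    set θ := η / 2 with hθ
    have hθpos : 0 < θ := by positivity
    set D := (1 / θ ^ 2 + 1 / θ) * (Cc K * K) + K ^ 2 + 1 with hD
    have hCc := Cc_nonneg K
    have hDpos : 0 < D := by positivity
    set δ := min (δ0 / 2 ^ K) (η / 2 / D) with hδ
    have hδpos : 0 < δ := by
      apply lt_min
      · positivity
      · positivity
    refine ⟨δ, hδpos, ?_⟩
    intro ι V _ _ e E w h
    have h1 : δ * D ≤ η / 2 := by
      have : δ ≤ η / 2 / D := min_le_right _ _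
      exact (le_div_iff₀ hDpos).mp this
    have hK2 : (K : ℝ) ^ 2 ≤ D := by
      have : 0 ≤ (1 / θ ^ 2 + 1 / θ) * (Cc K * K) := by positivity
      linarith
    have hD2 : (1 / θ ^ 2 + 1 / θ) * (Cc K * K) ≤ D := by
      have : 0 ≤ (K : ℝ) ^ 2 := by positivity
      linarith
    have h2 : α * K ^ 2 * δ ≤ 1 / 2 := by
      have h3 : (K : ℝ) ^ 2 * δ ≤ D * δ := mul_le_mul_of_nonneg_right hK2 hδpos.le
      have h4 : 0 ≤ (K : ℝ) ^ 2 * δ := by positivity
      nlinarith
    have h3 : (1 / θ ^ 2 + 1 / θ) * (Cc K * δ * K) ≤ η / 2 := by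
      have h4 : (1 / θ ^ 2 + 1 / θ) * (Cc K * K) * δ ≤ D * δ :=
        mul_le_mul_of_nonneg_right hD2 hδpos.le
      linarith
    have hA0 : 0 ≤ A := mul_nonneg hα.le (by linarith)
    have hB1 : B ≤ 1 := by
      rw [hB]
      nlinarith
    have hc := cr_nonneg hA0 hB1 r
    have h4 := step h hα hα1 h2 hθpos hc (fun E' w' hg => by
      apply ih e E' w'
      apply hg.mono
      have : δ ≤ δ0 / 2 ^ K := min_le_left _ _
      rw [le_div_iff₀ (by positivity)] at this
      linarith)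
    apply h4.mono
    have hW : 0 ≤ ∑ i ∈ E, w i := sum_nonneg h.nonneg
    apply mul_le_mul_of_nonneg_right _ hW
    rw [cr]
    have h5 : 1 - B ≤ ((1 - α) - (1 / θ ^ 2 + 1 / θ) * (Cc K * δ * K)) / (1 + θ) := by
      rw [le_div_iff₀ (by linarith)]
      have h6 : 0 ≤ 1 - B := by linarith
      have h7 : (1 - B) * (1 + θ) ≤ (1 - B) + θ := by nlinarith
      have h8 : 1 - B = 1 - α - η := by
        rw [hB]
        ring
      linarith
    have h6 := mul_le_mul_of_nonneg_left h5 hc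
    have h7 : cr A B r * (((1 - α) - (1 / θ ^ 2 + 1 / θ) * (Cc K * δ * K)) / (1 + θ)) =
        cr A B r * ((1 - α) - (1 / θ ^ 2 + 1 / θ) * (Cc K * δ * K)) / (1 + θ) := by ring
    linarith

/-- **Weighted nibble.** Fractional matchings of a finite hypergraph with edges of at most `K`
vertices and with small codegrees can be rounded. -/
theorem nibble (K : ℕ) (ε : ℝ) (hε : 0 < ε) :
    ∃ δ : ℝ, 0 < δ ∧ ∀ {ι V : Type} [DecidableEq ι] [DecidableEq V] (e : ι → Finset V)
      (E : Finset ι) (w : ι → ℝ), Good e E w K δ → HasM e E ((1 - ε) * ∑ i ∈ E, w i) := by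
  by_cases hε1 : 1 < ε
  · refine ⟨1, one_pos, ?_⟩
    intro ι V _ _ e E w h
    refine ⟨∅, empty_subset _, by simp, ?_⟩
    have hW : 0 ≤ ∑ i ∈ E, w i := sum_nonneg h.nonneg
    simp
    nlinarith
  push Not at hε1
  set α := ε / (4 * (K + 1)) with hα
  have hK1 : (0 : ℝ) < K + 1 := by positivity
  have hK0 : (0 : ℝ) ≤ K := by positivity
  have hαpos : 0 < α := by positivity
  have hαK : α * (K + 1) = ε / 4 := by
    rw [hα]
    field_simp
  have hα1 : α ≤ 1 / 2 := by nlinarith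
  have hαK' : α * K ≤ 1 := by nlinarith
  set A := α * (1 - α * K) with hA
  set B := α + α ^ 2 with hB
  have hBpos : 0 < B := by positivity
  have hB1 : B < 1 := by
    rw [hB]
    nlinarith
  obtain ⟨r, hr⟩ := exists_pow_lt_of_lt_one (show 0 < ε / 2 by linarith)
    (show 1 - B < 1 by linarith)
  obtain ⟨δ, hδ, h⟩ := rounds K α hαpos hα1 hαK' r
  refine ⟨δ, hδ, ?_⟩
  intro ι V _ _ e E w hg
  apply (h e E w hg).mono
  have hW : 0 ≤ ∑ i ∈ E, w i := sum_nonneg hg.nonneg
  apply mul_le_mul_of_nonneg_right _ hW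
  rw [cr_eq hBpos.ne']
  have h1 : 1 - ε / 4 ≤ A / B := by
    rw [le_div_iff₀ hBpos, hA, hB]
    have h2 : α * K = ε / 4 - α := by linarith
    rw [h2]
    nlinarith [mul_pos hαpos hε, mul_pos (mul_pos hαpos hαpos) hε]
  have h2 : 0 ≤ (1 - B) ^ r := pow_nonneg (by linarith) _
  have h3 : 1 - ε / 2 ≤ 1 - (1 - B) ^ r := by linarith
  calc 1 - ε ≤ (1 - ε / 4) * (1 - ε / 2) := by nlinarith
    _ ≤ A / B * (1 - (1 - B) ^ r) := by
      apply mul_le_mul h1 h3 (by linarith) (by linarith)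

end Pool.Agent.Lib.MP_21e00f_co
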