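import Pool.Agent.Lib.MP_21e00f_co.NibbleThm
import Pool.Agent.Lib.MP_21e00f_co.Defs
import Pool.Agent.Lib.MP_21e00f_co.Count

/-!
MP_21e00f_co: packing lemma. Weighted families of sequences `a + v + r`, with `r` in a box, and
with coverage at most `κ` contain many compatible sum-distinct sequences.
-/

set_option autoImplicit false

open Finset

namespace Pool.Agent.Lib.MP_21e00f_co

/-- indices: base sequence, shift, noise -/
abbrev Idx (m n : ℕ) := Fin m × ℕ × (Fin n → ℕ)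

variable {m n : ℕ}

/-- the sequence of an index -/
def sq (base : Fin m → Fin n → ℕ) (x : Idx m n) : Fin n → ℕ :=
  fun i => base x.1 i + x.2.1 + x.2.2 i

/-- all indices with shift below `T` and noise below `L` -/
def E0 (m n T L : ℕ) : Finset (Idx m n) := univ ×ˢ (range T ×ˢ box n L)

/-- nonempty subset sums -/
def sums (b : Fin n → ℕ) : Finset ℕ :=
  ((univ : Finset (Finset (Fin n))).erase ∅).image (fun I => ∑ i ∈ I, b i)

lemma mem_sums {b : Fin n → ℕ} {y : ℕ} :
    y ∈ sums b ↔ ∃ I : Finset (Fin n), I.Nonempty ∧ ∑ i ∈ I, b i = y := by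
  unfold sums
  rw [mem_image]
  constructor
  · rintro ⟨I, hI, h⟩
    rw [mem_erase] at hI
    exact ⟨I, nonempty_iff_ne_empty.mpr hI.1, h⟩
  · rintro ⟨I, hI, h⟩
    exact ⟨I, mem_erase.mpr ⟨nonempty_iff_ne_empty.mp hI, mem_univ _⟩, h⟩

/-- coverage of `y` by all the indices, before normalisation -/
noncomputable def cov (base : Fin m → Fin n → ℕ) (ω : Fin m → ℕ → ℝ) (T L y : ℕ) : ℝ :=
  ∑ I ∈ (univ : Finset (Finset (Fin n))).erase ∅,
    ∑ x ∈ E0 m n T L with (∑ i ∈ I, sq base x i = y), ω x.1 x.2.1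

/-- sorted version of a sequence -/
noncomputable def srt (b : Fin n → ℕ) : Fin n → ℕ := b ∘ Tuple.sort b

lemma sum_srt (b : Fin n → ℕ) (I : Finset (Fin n)) :
    ∑ i ∈ I, srt b i = ∑ i ∈ I.map (Tuple.sort b).toEmbedding, b i := by
  rw [sum_map]
  rfl

lemma inj_of_sd {b : Fin n → ℕ} (h : SumDistinct b) : Function.Injective b := by
  intro i j hij
  have h1 := h {i} {j} (by simpa using hij)
  exact singleton_injective h1

lemma srt_strict {b : Fin n → ℕ} (h : SumDistinct b) : StrictMono (srt b) :=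
  (Tuple.monotone_sort b).strictMono_of_injective
    ((inj_of_sd h).comp (Tuple.sort b).injective)

lemma srt_sd {b : Fin n → ℕ} (h : SumDistinct b) : SumDistinct (srt b) := by
  intro I J hIJ
  rw [sum_srt, sum_srt] at hIJ
  exact map_injective _ (h _ _ hIJ)

lemma srt_comp {b b' : Fin n → ℕ} (h : Disjoint (sums b) (sums b')) :
    Compatible (srt b) (srt b') := by
  intro I J hI hJ hIJ
  rw [sum_srt, sum_srt] at hIJ
  have h1 : ∑ i ∈ I.map (Tuple.sort b).toEmbedding, b i ∈ sums b :=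
    mem_sums.mpr ⟨_, hI.map, rfl⟩
  have h2 : ∑ i ∈ J.map (Tuple.sort b').toEmbedding, b' i ∈ sums b' :=
    mem_sums.mpr ⟨_, hJ.map, rfl⟩
  rw [hIJ] at h1
  exact disjoint_left.mp h h1 h2

lemma card_sums (b : Fin n → ℕ) : (sums b).card ≤ 2 ^ n := by
  unfold sums
  refine card_image_le.trans ?_
  refine (card_erase_le).trans ?_
  rw [card_univ, Fintype.card_finset, Fintype.card_fin]

lemma count_not_sd {L : ℕ} (a : Fin n → ℕ) (v : ℕ) (F : Finset (Fin n → ℕ)) (hF : F ⊆ box n L)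
    (hF2 : ∀ r ∈ F, ¬ SumDistinct (fun i => a i + v + r i)) :
    F.card ≤ 4 ^ n * L ^ (n - 1) := by
  have h1 : F ⊆
      (univ : Finset (Finset (Fin n) × Finset (Fin n))).biUnion (fun p =>
        if p.1 ≠ p.2 then (box n L).filter
          (fun r => ∑ i ∈ p.1, (a i + v + r i) = ∑ i ∈ p.2, (a i + v + r i)) else ∅) := by
    intro r hr
    have hr1 := hF hr
    have hr2 := hF2 r hr
    have hr3 : ∃ I J : Finset (Fin n), ∑ i ∈ I, (a i + v + r i) = ∑ i ∈ J, (a i + v + r i) ∧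
        I ≠ J := by
      by_contra hcon
      push Not at hcon
      exact hr2 (fun I J h => hcon I J h)
    obtain ⟨I, J, h, hIJ⟩ := hr3
    rw [mem_biUnion]
    refine ⟨(I, J), mem_univ _, ?_⟩
    rw [if_pos hIJ]
    exact mem_filter.mpr ⟨hr1, h⟩
  refine (card_le_card h1).trans ?_
  refine (card_biUnion_le_card_mul _ _ (L ^ (n - 1)) ?_).trans ?_
  · rintro ⟨I, J⟩ _
    by_cases hIJ : I = J
    · simp [hIJ]
    · rw [if_pos hIJ]
      exact count_bad a v hIJ
  · apply Nat.mul_le_mul_right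
    rw [card_univ, Fintype.card_prod, Fintype.card_finset, Fintype.card_fin, ← mul_pow]
    norm_num

lemma count_pair {T L : ℕ} (base : Fin m → Fin n → ℕ) {y y' : ℕ} (hy : y ≠ y')
    (F : Finset (Idx m n)) (hF : F ⊆ E0 m n T L)
    (hF2 : ∀ x ∈ F, y ∈ sums (sq base x) ∧ y' ∈ sums (sq base x)) :
    F.card ≤ (m * 4 ^ n) * L ^ (n - 1) := by
  classical
  have h1 : F ⊆ (univ : Finset (Fin m × Finset (Fin n) × Finset (Fin n))).biUnion (fun p =>
        if p.2.1.Nonempty ∧ p.2.2.Nonempty ∧ p.2.1 ≠ p.2.2 then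
          ((range T ×ˢ box n L).filter (fun x => ∑ i ∈ p.2.1, (base p.1 i + x.1 + x.2 i) = y ∧
            ∑ i ∈ p.2.2, (base p.1 i + x.1 + x.2 i) = y')).image (fun x => (p.1, x)) else ∅) := by
    rintro ⟨j, v, r⟩ hx
    obtain ⟨h2, h3⟩ := hF2 _ hx
    obtain ⟨I, hI, hIy⟩ := mem_sums.mp h2
    obtain ⟨J, hJ, hJy⟩ := mem_sums.mp h3
    have hIJ : I ≠ J := by
      rintro rfl
      exact hy (hIy.symm.trans hJy)
    rw [mem_biUnion]
    refine ⟨(j, I, J), mem_univ _, ?_⟩
    rw [if_pos ⟨hI, hJ, hIJ⟩, mem_image]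
    refine ⟨(v, r), ?_, rfl⟩
    rw [mem_filter]
    have h4 := hF hx
    unfold E0 at h4
    rw [mem_product] at h4
    exact ⟨h4.2, hIy, hJy⟩
  refine (card_le_card h1).trans ?_
  refine (card_biUnion_le_card_mul _ _ (L ^ (n - 1)) ?_).trans ?_
  · rintro ⟨j, I, J⟩ _
    by_cases hc : I.Nonempty ∧ J.Nonempty ∧ I ≠ J
    · rw [if_pos hc]
      exact card_image_le.trans (count_two (base j) y y' hc.1 hc.2.1 hc.2.2)
    · rw [if_neg hc, card_empty]
      exact Nat.zero_le _
  · apply Nat.mul_le_mul_right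
    rw [card_univ, Fintype.card_prod, Fintype.card_prod, Fintype.card_finset, Fintype.card_fin,
      Fintype.card_fin, ← mul_pow]
    norm_num

theorem pack (n m : ℕ) (hn : 1 ≤ n) (η : ℝ) (hη : 0 < η) (hη1 : η ≤ 1) :
    ∃ L : ℕ, 0 < L ∧ n.factorial ∣ L ∧
      ∀ (base : Fin m → Fin n → ℕ) (T : ℕ) (ω : Fin m → ℕ → ℝ) (κ : ℝ), 1 ≤ κ →
      (∀ j v, 0 ≤ ω j v) → (∀ j v, ω j v ≤ 1) → (∀ j i, 1 ≤ base j i) →
      (∀ y, cov base ω T L y ≤ κ * (L : ℝ) ^ n) →
      ∃ (t : ℕ) (A : Fin t → Fin n → ℕ), IsFamily t n A ∧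
        (1 - η) * (∑ j, ∑ v ∈ range T, ω j v) / κ ≤ t ∧
        ∀ B, (∀ j i, base j i ≤ B) → ∀ j i, A j i ≤ B + T + L := by
  classical
  obtain ⟨δ, hδ, hnib⟩ := nibble (2 ^ n) (η / 2) (by linarith)
  set ρ := min δ (η / 2) with hρ
  have hρpos : 0 < ρ := lt_min hδ (by linarith)
  obtain ⟨N, hN⟩ := exists_nat_ge (((m : ℝ) + 1) * 4 ^ n / ρ)
  have hNpos : 0 < N := by
    have h1 : 0 < ((m : ℝ) + 1) * 4 ^ n / ρ := by positivity
    have h2 : (0 : ℝ) < N := lt_of_lt_of_le h1 hN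
    exact_mod_cast h2
  set L := n.factorial * N with hL
  have hLpos : 0 < L := Nat.mul_pos (Nat.factorial_pos n) hNpos
  have hNL : N ≤ L := Nat.le_mul_of_pos_left N (Nat.factorial_pos n)
  have hLr : (0 : ℝ) < L := by exact_mod_cast hLpos
  have hLρ : ((m : ℝ) + 1) * 4 ^ n / L ≤ ρ := by
    rw [div_le_iff₀ hLr]
    have h1 : ((m : ℝ) + 1) * 4 ^ n ≤ N * ρ := by
      rwa [div_le_iff₀ hρpos] at hN
    have h2 : (N : ℝ) * ρ ≤ L * ρ := by
      apply mul_le_mul_of_nonneg_right _ hρpos.le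
      exact_mod_cast hNL
    linarith
  have h4pos : (0 : ℝ) < 4 ^ n := by positivity
  have hm0 : (0 : ℝ) ≤ m := Nat.cast_nonneg m
  have hL1 : (m : ℝ) * 4 ^ n / L ≤ δ := by
    have h1 : (m : ℝ) * 4 ^ n / L ≤ ((m : ℝ) + 1) * 4 ^ n / L := by
      apply div_le_div_of_nonneg_right _ hLr.le
      nlinarith
    exact h1.trans (hLρ.trans (min_le_left _ _))
  have hL2 : (4 : ℝ) ^ n / L ≤ η / 2 := by
    have h1 : (4 : ℝ) ^ n / L ≤ ((m : ℝ) + 1) * 4 ^ n / L := by
      apply div_le_div_of_nonneg_right _ hLr.le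
      nlinarith
    exact h1.trans (hLρ.trans (min_le_right _ _))
  have hL3 : 1 / (L : ℝ) ≤ δ := by
    have h0 : (1 : ℝ) ≤ ((m : ℝ) + 1) * 4 ^ n := by
      have : (1 : ℝ) ≤ 4 ^ n := one_le_pow₀ (by norm_num)
      nlinarith
    have h1 : 1 / (L : ℝ) ≤ ((m : ℝ) + 1) * 4 ^ n / L :=
      div_le_div_of_nonneg_right h0 hLr.le
    exact h1.trans (hLρ.trans (min_le_left _ _))
  have hpow : (L : ℝ) ^ n = L * (L : ℝ) ^ (n - 1) := by
    rw [← pow_succ', Nat.sub_add_cancel hn]
  have hLn : (0 : ℝ) < (L : ℝ) ^ n := by positivity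
  have hLn1 : (0 : ℝ) < (L : ℝ) ^ (n - 1) := by positivity
  refine ⟨L, hLpos, Dvd.intro _ rfl, ?_⟩
  intro base T ω κ hκ hω0 hω1 hbase hcov
  have hκ0 : 0 < κ := by linarith
  have hκL : 0 < κ * (L : ℝ) ^ n := by positivity
  set w : Idx m n → ℝ := fun x => ω x.1 x.2.1 / (κ * (L : ℝ) ^ n) with hw
  set e : Idx m n → Finset ℕ := fun x => sums (sq base x) with he
  set E := (E0 m n T L).filter (fun x => SumDistinct (sq base x)) with hE
  have hw0 : ∀ x, 0 ≤ w x := fun x => div_nonneg (hω0 _ _) hκL.le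
  have hw1 : ∀ x, w x ≤ 1 / (L : ℝ) ^ n := by
    intro x
    rw [hw]
    show ω x.1 x.2.1 / (κ * (L : ℝ) ^ n) ≤ 1 / (L : ℝ) ^ n
    rw [div_le_div_iff₀ hκL hLn]
    have h1 := hω1 x.1 x.2.1
    have h2 := hω0 x.1 x.2.1
    nlinarith
  have hgood : Good e E w (2 ^ n) δ := by
    refine ⟨fun x _ => hw0 x, ?_, fun x _ => card_sums _, ?_, ?_, ?_⟩
    · intro x _
      refine (hw1 x).trans (le_trans ?_ hL3)
      rw [div_le_div_iff₀ hLn hLr, one_mul, one_mul]
      have : (1 : ℝ) ≤ L := by exact_mod_cast hLpos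
      exact le_self_pow₀ this (by omega)
    · intro x _
      refine ⟨∑ i ∈ {(⟨0, hn⟩ : Fin n)}, sq base x i, ?_⟩
      exact mem_sums.mpr ⟨_, singleton_nonempty _, rfl⟩
    · intro y
      have h1 : ∑ x ∈ E with y ∈ e x, ω x.1 x.2.1 ≤ cov base ω T L y := by
        unfold cov
        have h2 : ∀ I ∈ (univ : Finset (Finset (Fin n))).erase ∅,
            ∑ x ∈ E0 m n T L with (∑ i ∈ I, sq base x i = y), ω x.1 x.2.1 =
            ∑ x ∈ E0 m n T L, if (∑ i ∈ I, sq base x i = y) then ω x.1 x.2.1 else 0 := by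
          intro I _
          rw [sum_filter]
        rw [sum_congr rfl h2, sum_comm]
        have h3 : E.filter (fun x => y ∈ e x) ⊆ E0 m n T L :=
          (filter_subset _ _).trans (filter_subset _ _)
        have h4 : ∀ x ∈ E0 m n T L, (0 : ℝ) ≤
            ∑ I ∈ (univ : Finset (Finset (Fin n))).erase ∅,
              if (∑ i ∈ I, sq base x i = y) then ω x.1 x.2.1 else 0 := by
          intro x _
          apply sum_nonneg
          intro I _
          split_ifs
          · exact hω0 _ _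
          · exact le_rfl
        refine le_trans ?_ (sum_le_sum_of_subset_of_nonneg h3 (fun x hx _ => h4 x hx))
        apply sum_le_sum
        intro x hx
        obtain ⟨I, hI, hIy⟩ := mem_sums.mp (mem_filter.mp hx).2
        have h5 : (if (∑ i ∈ I, sq base x i = y) then ω x.1 x.2.1 else 0) = ω x.1 x.2.1 :=
          if_pos hIy
        refine le_trans h5.symm.le ?_
        apply single_le_sum (f := fun I : Finset (Fin n) =>
          if (∑ i ∈ I, sq base x i = y) then ω x.1 x.2.1 else 0)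
        · intro I _
          show (0 : ℝ) ≤ if (∑ i ∈ I, sq base x i = y) then ω x.1 x.2.1 else 0
          split_ifs
          · exact hω0 _ _
          · exact le_rfl
        · exact mem_erase.mpr ⟨nonempty_iff_ne_empty.mp hI, mem_univ _⟩
      rw [hw]
      show ∑ x ∈ E with y ∈ e x, ω x.1 x.2.1 / (κ * (L : ℝ) ^ n) ≤ 1
      rw [← sum_div, div_le_one hκL]
      exact h1.trans (hcov y)
    · intro y y' hyy
      set F := E.filter (fun x => y ∈ e x ∧ y' ∈ e x) with hF
      have h1 := count_pair (T := T) (L := L) base hyy F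
        ((filter_subset _ _).trans (filter_subset _ _)) (fun x hx => (mem_filter.mp hx).2)
      calc ∑ x ∈ F, w x ≤ ∑ _x ∈ F, 1 / (L : ℝ) ^ n := sum_le_sum (fun x _ => hw1 x)
        _ = F.card * (1 / (L : ℝ) ^ n) := by rw [sum_const, nsmul_eq_mul]
        _ ≤ ((m * 4 ^ n) * L ^ (n - 1) : ℕ) * (1 / (L : ℝ) ^ n) := by
            apply mul_le_mul_of_nonneg_right _ (by positivity)
            exact_mod_cast h1
        _ = (m : ℝ) * 4 ^ n / L := by
            push_cast
            rw [hpow]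
            field_simp
        _ ≤ δ := hL1
  obtain ⟨M, hME, hMd, hMc⟩ := hnib e E w hgood
  -- total weight
  have htot : (1 - η / 2) * (∑ j, ∑ v ∈ range T, ω j v) / κ ≤ ∑ x ∈ E, w x := by
    have h1 : ∑ x ∈ E, w x = (∑ x ∈ E, ω x.1 x.2.1) / (κ * (L : ℝ) ^ n) := by
      rw [sum_div]
    have h2 : ∑ x ∈ E0 m n T L, ω x.1 x.2.1 = (L : ℝ) ^ n * ∑ j, ∑ v ∈ range T, ω j v := by
      unfold E0
      rw [sum_product, mul_sum]
      apply sum_congr rfl
      intro j _
      rw [sum_product, mul_sum]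
      apply sum_congr rfl
      intro v _
      show ∑ _y ∈ box n L, ω j v = _
      rw [sum_const, card_box, nsmul_eq_mul]
      push_cast
      ring
    have h3 : ∑ x ∈ (E0 m n T L).filter (fun x => ¬ SumDistinct (sq base x)), ω x.1 x.2.1 ≤
        (4 ^ n * (L : ℝ) ^ (n - 1)) * ∑ j, ∑ v ∈ range T, ω j v := by
      rw [sum_filter]
      unfold E0
      rw [sum_product, mul_sum]
      apply sum_le_sum
      intro j _
      rw [sum_product, mul_sum]
      apply sum_le_sum
      intro v _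
      rw [← sum_filter]
      have h4 := count_not_sd (L := L) (base j) v
        ((box n L).filter (fun r => ¬ SumDistinct (sq base (j, v, r)))) (filter_subset _ _)
        (fun r hr => (mem_filter.mp hr).2)
      have h5 : ∑ r ∈ (box n L).filter (fun r => ¬ SumDistinct (sq base (j, v, r))),
          ω (j, v, r).1 (j, v, r).2.1 =
          ((box n L).filter (fun r => ¬ SumDistinct (sq base (j, v, r)))).card * ω j v := by
        rw [← nsmul_eq_mul, ← sum_const]
      rw [h5]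
      apply mul_le_mul_of_nonneg_right _ (hω0 _ _)
      exact_mod_cast h4
    have h4 := sum_filter_add_sum_filter_not (E0 m n T L) (fun x => SumDistinct (sq base x))
      (fun x => ω x.1 x.2.1)
    rw [h2] at h4
    have hΩ : 0 ≤ ∑ j, ∑ v ∈ range T, ω j v :=
      sum_nonneg (fun j _ => sum_nonneg (fun v _ => hω0 j v))
    set Ω := ∑ j, ∑ v ∈ range T, ω j v with hΩd
    have h5 : (L : ℝ) ^ n * Ω - (4 ^ n * (L : ℝ) ^ (n - 1)) * Ω ≤ ∑ x ∈ E, ω x.1 x.2.1 := by
      rw [← hE] at h4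
      linarith
    have h6 : (4 : ℝ) ^ n * (L : ℝ) ^ (n - 1) ≤ η / 2 * (L : ℝ) ^ n := by
      rw [hpow]
      rw [div_le_iff₀ hLr] at hL2
      nlinarith
    rw [h1, div_le_div_iff₀ hκ0 hκL]
    have h7 : (1 - η / 2) * Ω * (L : ℝ) ^ n ≤ ∑ x ∈ E, ω x.1 x.2.1 := by nlinarith
    nlinarith
  have hΩ : 0 ≤ ∑ j, ∑ v ∈ range T, ω j v :=
    sum_nonneg (fun j _ => sum_nonneg (fun v _ => hω0 j v))
  have hcard : (1 - η) * (∑ j, ∑ v ∈ range T, ω j v) / κ ≤ M.card := by
    refine le_trans ?_ hMc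
    have h1 : (1 - η / 2) * ((1 - η / 2) * (∑ j, ∑ v ∈ range T, ω j v) / κ) ≤
        (1 - η / 2) * ∑ x ∈ E, w x := mul_le_mul_of_nonneg_left htot (by linarith)
    refine le_trans ?_ h1
    have h2 : (1 - η / 2) * ((1 - η / 2) * (∑ j, ∑ v ∈ range T, ω j v) / κ) =
        ((1 - η / 2) * (1 - η / 2)) * (∑ j, ∑ v ∈ range T, ω j v) / κ := by ring
    rw [h2]
    apply div_le_div_of_nonneg_right _ hκ0.le
    apply mul_le_mul_of_nonneg_right _ hΩ
    nlinarith
  have hsd : ∀ x ∈ M, SumDistinct (sq base x) := fun x hx => (mem_filter.mp (hME hx)).2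
  refine ⟨M.card, fun k => srt (sq base (M.equivFin.symm k).1), ⟨?_, ?_, ?_, ?_⟩, hcard, ?_⟩
  · intro k
    exact srt_strict (hsd _ (M.equivFin.symm k).2)
  · intro k i
    have h1 : ∀ (x : Idx m n) (i' : Fin n), 0 < sq base x i' := by
      intro x i'
      have := hbase x.1 i'
      unfold sq
      omega
    exact h1 _ _
  · intro k
    exact srt_sd (hsd _ (M.equivFin.symm k).2)
  · intro k k' hkk
    apply srt_comp
    apply hMd _ (M.equivFin.symm k).2 _ (M.equivFin.symm k').2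
    intro h
    apply hkk
    exact M.equivFin.symm.injective (Subtype.ext h)
  · intro B hB k i
    have h1 : ∀ (x : Idx m n) (i' : Fin n), x ∈ M → sq base x i' ≤ B + T + L := by
      intro x i' hx
      have h1 := hME hx
      rw [hE, mem_filter] at h1
      have h2 := h1.1
      unfold E0 at h2
      rw [mem_product, mem_product, mem_range] at h2
      have h3 := hB x.1 i'
      have h4 := mem_box.mp h2.2.2 i'
      have h5 := h2.2.1
      unfold sq
      omega
    exact h1 _ _ (M.equivFin.symm k).2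

end Pool.Agent.Lib.MP_21e00f_co
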