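import Mathlib

/-!
MP_21e00f_co: random subsets of a finite set with independent choices, as finite weighted sums.
-/

set_option autoImplicit false
set_option linter.unusedSectionVars false

open Finset

namespace Pool.Agent.Lib.MP_21e00f_co

variable {ι : Type*} [DecidableEq ι]

/-- expectation of `f S` where `S ⊆ E` is random, each `i` chosen with probability `p i` -/
noncomputable def ex (E : Finset ι) (p : ι → ℝ) (f : Finset ι → ℝ) : ℝ :=
  ∑ S ∈ E.powerset, ((∏ i ∈ S, p i) * ∏ i ∈ E \ S, (1 - p i)) * f S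

lemma ex_congr {E : Finset ι} {p : ι → ℝ} {f g : Finset ι → ℝ} (h : ∀ S ⊆ E, f S = g S) :
    ex E p f = ex E p g := by
  unfold ex
  apply sum_congr rfl
  intro S hS
  rw [h S (mem_powerset.mp hS)]

lemma ex_add (E : Finset ι) (p : ι → ℝ) (f g : Finset ι → ℝ) :
    ex E p (fun S => f S + g S) = ex E p f + ex E p g := by
  unfold ex
  rw [← sum_add_distrib]
  apply sum_congr rfl
  intro S _
  ring

lemma ex_sub (E : Finset ι) (p : ι → ℝ) (f g : Finset ι → ℝ) :
    ex E p (fun S => f S - g S) = ex E p f - ex E p g := by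
  unfold ex
  rw [← sum_sub_distrib]
  apply sum_congr rfl
  intro S _
  ring

lemma ex_mul (E : Finset ι) (p : ι → ℝ) (c : ℝ) (f : Finset ι → ℝ) :
    ex E p (fun S => c * f S) = c * ex E p f := by
  unfold ex
  rw [mul_sum]
  apply sum_congr rfl
  intro S _
  ring

lemma ex_sum {κ : Type*} (E : Finset ι) (p : ι → ℝ) (s : Finset κ) (f : κ → Finset ι → ℝ) :
    ex E p (fun S => ∑ k ∈ s, f k S) = ∑ k ∈ s, ex E p (f k) := by
  unfold ex
  rw [sum_comm]
  apply sum_congr rfl
  intro S _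
  rw [mul_sum]

lemma weight_nonneg {E : Finset ι} {p : ι → ℝ} (hp : ∀ i ∈ E, 0 ≤ p i) (hp1 : ∀ i ∈ E, p i ≤ 1)
    {S : Finset ι} (hS : S ⊆ E) : 0 ≤ (∏ i ∈ S, p i) * ∏ i ∈ E \ S, (1 - p i) := by
  apply mul_nonneg
  · exact prod_nonneg (fun i hi => hp i (hS hi))
  · apply prod_nonneg
    intro i hi
    have := hp1 i (mem_sdiff.mp hi).1
    linarith

lemma ex_mono {E : Finset ι} {p : ι → ℝ} (hp : ∀ i ∈ E, 0 ≤ p i) (hp1 : ∀ i ∈ E, p i ≤ 1)
    {f g : Finset ι → ℝ} (h : ∀ S ⊆ E, f S ≤ g S) : ex E p f ≤ ex E p g := by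
  unfold ex
  apply sum_le_sum
  intro S hS
  rw [mem_powerset] at hS
  exact mul_le_mul_of_nonneg_left (h S hS) (weight_nonneg hp hp1 hS)

/-- probability of avoiding `T` -/
lemma ex_avoid (E : Finset ι) (p : ι → ℝ) (T : Finset ι) (hT : T ⊆ E) :
    ex E p (fun S => if Disjoint S T then 1 else 0) = ∏ i ∈ T, (1 - p i) := by
  have h := prod_add (fun i => if i ∈ T then (0 : ℝ) else p i) (fun i => 1 - p i) E
  have h1 : ∏ i ∈ E, ((if i ∈ T then (0 : ℝ) else p i) + (1 - p i)) = ∏ i ∈ T, (1 - p i) := by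
    rw [← prod_subset hT]
    · apply prod_congr rfl
      intro i hi
      simp [hi]
    · intro i _ hi
      simp [hi]
  rw [← h1, h]
  unfold ex
  apply sum_congr rfl
  intro S hS
  show _ * (if Disjoint S T then (1 : ℝ) else 0) = _
  by_cases hd : Disjoint S T
  · rw [if_pos hd, mul_one]
    congr 1
    apply prod_congr rfl
    intro i hi
    rw [if_neg (disjoint_left.mp hd hi)]
  · rw [if_neg hd, mul_zero]
    rw [not_disjoint_iff] at hd
    obtain ⟨i, hi, hi2⟩ := hd
    rw [prod_eq_zero hi (by rw [if_pos hi2]), zero_mul]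

lemma ex_one (E : Finset ι) (p : ι → ℝ) : ex E p (fun _ => 1) = 1 := by
  have h := ex_avoid E p ∅ (empty_subset _)
  simpa using h

/-- some outcome is at least the expectation -/
lemma exists_ge {E : Finset ι} {p : ι → ℝ} (hp : ∀ i ∈ E, 0 ≤ p i) (hp1 : ∀ i ∈ E, p i ≤ 1)
    (f : Finset ι → ℝ) : ∃ S ⊆ E, ex E p f ≤ f S := by
  by_contra hcon
  push Not at hcon
  have hne : E.powerset.Nonempty := ⟨∅, by simp⟩
  obtain ⟨S0, hS0, hmax⟩ := exists_max_image E.powerset f hne
  rw [mem_powerset] at hS0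
  have h1 : ex E p f ≤ ex E p (fun _ => f S0 * 1) := by
    apply ex_mono hp hp1
    intro S hS
    rw [mul_one]
    exact hmax S (mem_powerset.mpr hS)
  rw [ex_mul, ex_one, mul_one] at h1
  exact absurd (hcon S0 hS0) (not_lt.mpr h1)

/-- chosen and avoiding -/
lemma ex_chosen (E : Finset ι) (p : ι → ℝ) (T : Finset ι) (hT : T ⊆ E) (i : ι) (hi : i ∈ E)
    (hiT : i ∉ T) :
    ex E p (fun S => if i ∈ S ∧ Disjoint S T then 1 else 0) = p i * ∏ j ∈ T, (1 - p j) := by
  have h1 := ex_avoid E p T hT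
  have h2 := ex_avoid E p (insert i T) (insert_subset hi hT)
  rw [prod_insert hiT] at h2
  have h3 : ex E p (fun S => if i ∈ S ∧ Disjoint S T then 1 else 0)
      = ex E p (fun S => (if Disjoint S T then (1 : ℝ) else 0) -
        (if Disjoint S (insert i T) then 1 else 0)) := by
    apply ex_congr
    intro S _
    by_cases ha : i ∈ S <;> by_cases hb : Disjoint S T <;>
      simp [disjoint_insert_right, ha, hb]
  rw [h3, ex_sub, h1, h2]
  ring

lemma one_sub_sum_le_prod {s : Finset ι} {p : ι → ℝ} (hp : ∀ i ∈ s, 0 ≤ p i)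
    (hp1 : ∀ i ∈ s, p i ≤ 1) : 1 - ∑ i ∈ s, p i ≤ ∏ i ∈ s, (1 - p i) := by
  induction s using Finset.induction_on with
  | empty => simp
  | insert a s ha ih =>
    rw [sum_insert ha, prod_insert ha]
    have h1 := ih (fun i hi => hp i (mem_insert_of_mem hi)) (fun i hi => hp1 i (mem_insert_of_mem hi))
    have h2 := hp a (mem_insert_self a s)
    have h3 := hp1 a (mem_insert_self a s)
    have h4 : 0 ≤ ∑ i ∈ s, p i := sum_nonneg (fun i hi => hp i (mem_insert_of_mem hi))
    have h5 : ∏ i ∈ s, (1 - p i) ≤ 1 := by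
      apply prod_le_one
      · intro i hi
        have := hp1 i (mem_insert_of_mem hi)
        linarith
      · intro i hi
        have := hp i (mem_insert_of_mem hi)
        linarith
    nlinarith

lemma prod_le_one' {s : Finset ι} {p : ι → ℝ} (hp : ∀ i ∈ s, 0 ≤ p i)
    (hp1 : ∀ i ∈ s, p i ≤ 1) : ∏ i ∈ s, (1 - p i) ≤ 1 := by
  apply prod_le_one
  · intro i hi
    have := hp1 i hi
    linarith
  · intro i hi
    have := hp i hi
    linarith

lemma prod_nonneg' {s : Finset ι} {p : ι → ℝ} 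
    (hp1 : ∀ i ∈ s, p i ≤ 1) : 0 ≤ ∏ i ∈ s, (1 - p i) := by
  apply prod_nonneg
  intro i hi
  have := hp1 i hi
  linarith

end Pool.Agent.Lib.MP_21e00f_co
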