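import Pool.Agent.Lib.MP_21e00f_co.Bite

/-!
MP_21e00f_co: the induction step and the conclusion of the weighted nibble.
-/

set_option autoImplicit false
set_option linter.unusedSectionVars false

open Finset

namespace Pool.Agent.Lib.MP_21e00f_co

variable {ι V : Type*} [DecidableEq ι] [DecidableEq V]
variable {e : ι → Finset V} {E : Finset ι} {w : ι → ℝ} {K : ℕ} {δ α : ℝ}

/-- chosen edges that meet no other chosen edge -/
def Mm (e : ι → Finset V) (E S : Finset ι) : Finset ι :=
  S.filter (fun i => Disjoint S ((hit e E (e i)).erase i))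

/-- surviving edges -/
def Es (e : ι → Finset V) (E S : Finset ι) : Finset ι :=
  E.filter (fun i => Disjoint S (hit e E (e i)))

open Classical in
/-- surviving edges without bad vertices -/
noncomputable def Eg (e : ι → Finset V) (E : Finset ι) (w : ι → ℝ) (α θ : ℝ) (S : Finset ι) :
    Finset ι :=
  (Es e E S).filter (fun i => ∀ v ∈ e i, X e E w α v S ≤ 1 + θ)

lemma ex_M (h : Good e E w K δ) (hα : 0 ≤ α) (hα1 : α ≤ 1 / 2) :
    α * (1 - α * K) * ∑ i ∈ E, w i ≤
      ex E (fun i => α * w i) (fun S => ((Mm e E S).card : ℝ)) := by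
  have h1 : ex E (fun i => α * w i) (fun S => ((Mm e E S).card : ℝ)) =
      ex E (fun i => α * w i) (fun S => ∑ i ∈ E,
        if i ∈ S ∧ Disjoint S ((hit e E (e i)).erase i) then (1 : ℝ) else 0) := by
    apply ex_congr
    intro S hS
    rw [← sum_filter, sum_const, nsmul_eq_mul, mul_one]
    congr 2
    ext i
    unfold Mm
    rw [mem_filter, mem_filter]
    exact ⟨fun hx => ⟨hS hx.1, hx⟩, fun hx => hx.2⟩
  rw [h1, ex_sum, mul_sum]
  apply sum_le_sum
  intro i hi
  have hsub : (hit e E (e i)).erase i ⊆ E := (erase_subset _ _).trans (hit_subset _)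
  rw [ex_chosen E _ _ hsub i hi (notMem_erase _ _)]
  have h2 : 1 - α * K ≤ ∏ j ∈ (hit e E (e i)).erase i, (1 - α * w j) := by
    refine le_trans ?_ (one_sub_sum_le_prod (fun j hj => pn h hα j (hsub hj))
      (fun j hj => pl h hα (by linarith) j (hsub hj)))
    rw [← mul_sum]
    have h3 : ∑ j ∈ (hit e E (e i)).erase i, w j ≤ K := by
      calc ∑ j ∈ (hit e E (e i)).erase i, w j ≤ ∑ j ∈ hit e E (e i), w j := by
            apply sum_le_sum_of_subset_of_nonneg (erase_subset _ _)
            intro j hj _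
            exact h.nonneg j (hit_subset _ hj)
        _ ≤ (e i).card := sum_hit_le h (e i)
        _ ≤ K := Nat.cast_le.mpr (h.card i hi)
    nlinarith
  have h4 := pn h hα i hi
  calc α * (1 - α * K) * w i = (α * w i) * (1 - α * K) := by ring
    _ ≤ _ := mul_le_mul_of_nonneg_left h2 h4

lemma ind_of_mem {S : Finset ι} {i : ι} (hi : i ∈ Es e E S) : ind e E (e i) S = 1 := by
  unfold Es at hi
  rw [mem_filter] at hi
  unfold ind
  rw [if_pos hi.2]

lemma Eg_subset (θ : ℝ) (S : Finset ι) : Eg e E w α θ S ⊆ Es e E S := by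
  classical
  unfold Eg
  exact filter_subset _ _

lemma Es_subset (S : Finset ι) : Es e E S ⊆ E := filter_subset _ _

lemma good_new (h : Good e E w K δ) (hα : 0 ≤ α) (hα1 : α ≤ 1 / 2) {θ : ℝ} (hθ : 0 < θ)
    (S : Finset ι) :
    Good e (Eg e E w α θ S) (fun i => nw e E w α i / (1 + θ)) K (2 ^ K * δ) := by
  classical
  have hsub : Eg e E w α θ S ⊆ E := (Eg_subset θ S).trans (Es_subset S)
  have h1θ : (0 : ℝ) < 1 + θ := by linarith
  have hle : ∀ i ∈ E, nw e E w α i / (1 + θ) ≤ 2 ^ K * w i := by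
    intro i hi
    have h1 := nw_le h hα hα1 hi
    have h2 := nw_nonneg h hα hα1 hi
    rw [div_le_iff₀ h1θ]
    have h3 : 0 ≤ (2 : ℝ) ^ K * w i := by
      have := h.nonneg i hi
      positivity
    nlinarith
  refine ⟨?_, ?_, ?_, ?_, ?_, ?_⟩
  · intro i hi
    exact div_nonneg (nw_nonneg h hα hα1 (hsub hi)) h1θ.le
  · intro i hi
    refine (hle i (hsub hi)).trans ?_
    exact mul_le_mul_of_nonneg_left (h.small i (hsub hi)) (by positivity)
  · intro i hi
    exact h.card i (hsub hi)
  · intro i hi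
    exact h.nonempty i (hsub hi)
  · intro v
    by_cases hemp : ((Eg e E w α θ S).filter (fun i => v ∈ e i)).Nonempty
    swap
    · rw [not_nonempty_iff_eq_empty] at hemp
      rw [hemp, sum_empty]
      norm_num
    obtain ⟨i0, hi0⟩ := hemp
    rw [mem_filter] at hi0
    have hx : X e E w α v S ≤ 1 + θ := by
      have h2 := hi0.1
      unfold Eg at h2
      rw [mem_filter] at h2
      exact h2.2 v hi0.2
    rw [← sum_div, div_le_one h1θ]
    refine le_trans ?_ hx
    unfold X
    calc ∑ i ∈ (Eg e E w α θ S).filter (fun i => v ∈ e i), nw e E w α i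
        = ∑ i ∈ (Eg e E w α θ S).filter (fun i => v ∈ e i), nw e E w α i * ind e E (e i) S := by
          apply sum_congr rfl
          intro i hi
          rw [ind_of_mem (Eg_subset θ S (mem_filter.mp hi).1), mul_one]
      _ ≤ _ := by
          apply sum_le_sum_of_subset_of_nonneg (filter_subset_filter _ hsub)
          intro i hi _
          exact mul_nonneg (nw_nonneg h hα hα1 (mem_filter.mp hi).1) (ind_nonneg _ _)
  · intro u v huv
    calc ∑ i ∈ (Eg e E w α θ S).filter (fun i => u ∈ e i ∧ v ∈ e i), nw e E w α i / (1 + θ)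
        ≤ ∑ i ∈ (Eg e E w α θ S).filter (fun i => u ∈ e i ∧ v ∈ e i), 2 ^ K * w i :=
          sum_le_sum (fun i hi => hle i (hsub (mem_filter.mp hi).1))
      _ ≤ ∑ i ∈ E.filter (fun i => u ∈ e i ∧ v ∈ e i), 2 ^ K * w i := by
          apply sum_le_sum_of_subset_of_nonneg (filter_subset_filter _ hsub)
          intro i hi _
          have := h.nonneg i (mem_filter.mp hi).1
          positivity
      _ = 2 ^ K * ∑ i ∈ E.filter (fun i => u ∈ e i ∧ v ∈ e i), w i := by rw [mul_sum]
      _ ≤ _ := mul_le_mul_of_nonneg_left (h.codeg u v huv) (by positivity)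

lemma sum_Eg (h : Good e E w K δ) (hα : 0 ≤ α) (hα1 : α ≤ 1 / 2) {θ : ℝ} (S : Finset ι) :
    (∑ i ∈ E, nw e E w α i * ind e E (e i) S) -
      (∑ v ∈ E.biUnion e, if 1 + θ < X e E w α v S then X e E w α v S else 0)
      ≤ ∑ i ∈ Eg e E w α θ S, nw e E w α i := by
  classical
  have h1 : (∑ v ∈ E.biUnion e, if 1 + θ < X e E w α v S then X e E w α v S else 0)
      = ∑ i ∈ E, ∑ v ∈ E.biUnion e, if (v ∈ e i ∧ 1 + θ < X e E w α v S) then
          nw e E w α i * ind e E (e i) S else 0 := by
    rw [sum_comm]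
    apply sum_congr rfl
    intro v _
    by_cases hb : 1 + θ < X e E w α v S
    · rw [if_pos hb]
      conv_lhs => unfold X
      rw [sum_filter]
      apply sum_congr rfl
      intro i _
      by_cases hv : v ∈ e i
      · rw [if_pos hv, if_pos ⟨hv, hb⟩]
      · rw [if_neg hv, if_neg (fun hx => hv hx.1)]
    · rw [if_neg hb]
      symm
      apply sum_eq_zero
      intro i _
      rw [if_neg (fun hx => hb hx.2)]
  rw [h1, ← sum_sub_distrib]
  have h2 : ∑ i ∈ Eg e E w α θ S, nw e E w α i =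
      ∑ i ∈ E, if i ∈ Eg e E w α θ S then nw e E w α i else 0 := by
    rw [← sum_filter]
    congr 1
    ext i
    constructor
    · intro hi
      exact mem_filter.mpr ⟨Es_subset S (Eg_subset θ S hi), hi⟩
    · intro hi
      exact (mem_filter.mp hi).2
  rw [h2]
  apply sum_le_sum
  intro i hi
  have hnn := nw_nonneg h hα hα1 hi
  have hin := ind_nonneg (e := e) (E := E) (e i) S
  have hnn' : ∀ v ∈ E.biUnion e, (0 : ℝ) ≤ if (v ∈ e i ∧ 1 + θ < X e E w α v S) then
          nw e E w α i * ind e E (e i) S else 0 := by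
    intro v _
    split_ifs
    · exact mul_nonneg hnn hin
    · exact le_rfl
  have hs := sum_nonneg hnn'
  by_cases hg : i ∈ Eg e E w α θ S
  · rw [if_pos hg]
    have h3 := ind_of_mem (Eg_subset θ S hg)
    rw [h3, mul_one] at hs ⊢
    linarith
  · rw [if_neg hg]
    by_cases hs2 : i ∈ Es e E S
    · have h4 : ∃ v ∈ e i, 1 + θ < X e E w α v S := by
        by_contra hcon
        push Not at hcon
        apply hg
        unfold Eg
        rw [mem_filter]
        exact ⟨hs2, hcon⟩
      obtain ⟨v, hv, hb⟩ := h4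
      have h5 : nw e E w α i * ind e E (e i) S ≤
          ∑ v ∈ E.biUnion e, if (v ∈ e i ∧ 1 + θ < X e E w α v S) then
          nw e E w α i * ind e E (e i) S else 0 := by
        have h6 : (if (v ∈ e i ∧ 1 + θ < X e E w α v S) then
            nw e E w α i * ind e E (e i) S else 0) = nw e E w α i * ind e E (e i) S :=
          if_pos ⟨hv, hb⟩
        refine le_trans h6.symm.le ?_
        exact single_le_sum (f := fun v => if (v ∈ e i ∧ 1 + θ < X e E w α v S) then
              nw e E w α i * ind e E (e i) S else 0) hnn'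
              (mem_biUnion.mpr ⟨i, hi, hv⟩)
      linarith
    · have h4 : ind e E (e i) S = 0 := by
        unfold ind
        rw [if_neg]
        intro hd
        apply hs2
        unfold Es
        rw [mem_filter]
        exact ⟨hi, hd⟩
      rw [h4, mul_zero] at hs ⊢
      linarith

/-- matching of the hypergraph with at least `c * ∑ w` edges -/
def HasM (e : ι → Finset V) (E : Finset ι) (x : ℝ) : Prop :=
  ∃ M ⊆ E, (∀ i ∈ M, ∀ j ∈ M, i ≠ j → Disjoint (e i) (e j)) ∧ x ≤ M.card

theorem step (h : Good e E w K δ) (hα : 0 < α) (hα1 : α ≤ 1 / 2)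
    (hδ : α * K ^ 2 * δ ≤ 1 / 2) {θ c : ℝ} (hθ : 0 < θ) (hc : 0 ≤ c)
    (IH : ∀ (E' : Finset ι) (w' : ι → ℝ), Good e E' w' K (2 ^ K * δ) →
      HasM e E' (c * ∑ i ∈ E', w' i)) :
    HasM e E ((α * (1 - α * K) + c * ((1 - α) - (1 / θ ^ 2 + 1 / θ) * (Cc K * δ * K)) / (1 + θ)) *
      ∑ i ∈ E, w i) := by
  classical
  have h1θ : (0 : ℝ) < 1 + θ := by linarith
  set p : ι → ℝ := fun i => α * w i with hp
  set VV := E.biUnion e with hVV
  set F : Finset ι → ℝ := fun S => ((Mm e E S).card : ℝ) +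
    c / (1 + θ) * ((∑ i ∈ E, nw e E w α i * ind e E (e i) S) -
      (∑ v ∈ VV, if 1 + θ < X e E w α v S then X e E w α v S else 0)) with hF
  obtain ⟨S, hS, hSF⟩ := exists_ge (pn h hα.le) (pl h hα.le (by linarith)) F
  have hWs : ∑ v ∈ VV, ∑ i ∈ E with v ∈ e i, w i ≤ K * ∑ i ∈ E, w i := by
    have h1 : ∀ v ∈ VV, ∑ i ∈ E with v ∈ e i, w i = ∑ i ∈ E, if v ∈ e i then w i else 0 := by
      intro v _
      rw [sum_filter]
    rw [sum_congr rfl h1, sum_comm, mul_sum]
    apply sum_le_sum
    intro i hi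
    rw [← sum_filter, sum_const, nsmul_eq_mul]
    apply mul_le_mul_of_nonneg_right _ (h.nonneg i hi)
    have h2 : VV.filter (fun v => v ∈ e i) ⊆ e i := fun v hv => (mem_filter.mp hv).2
    exact Nat.cast_le.mpr ((card_le_card h2).trans (h.card i hi))
  have hEF : (α * (1 - α * K) + c * ((1 - α) - (1 / θ ^ 2 + 1 / θ) * (Cc K * δ * K)) / (1 + θ)) *
      ∑ i ∈ E, w i ≤ ex E p F := by
    rw [hF, ex_add, ex_mul, ex_sub, ex_sum, ex_sum]
    have h1 := ex_M h hα.le hα1
    have h2 : ∑ i ∈ E, ex E p (fun S => nw e E w α i * ind e E (e i) S) =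
        (1 - α) * ∑ i ∈ E, w i := by
      rw [mul_sum]
      apply sum_congr rfl
      intro i _
      rw [ex_mul, ex_ind, nw_mul_Q h hα.le hα1]
      ring
    have h3 : ∑ v ∈ VV, ex E p (fun S => if 1 + θ < X e E w α v S then X e E w α v S else 0)
        ≤ (1 / θ ^ 2 + 1 / θ) * (Cc K * δ * K) * ∑ i ∈ E, w i := by
      calc ∑ v ∈ VV, ex E p (fun S => if 1 + θ < X e E w α v S then X e E w α v S else 0)
          ≤ ∑ v ∈ VV, (1 / θ ^ 2 + 1 / θ) * (Cc K * δ * ∑ i ∈ E with v ∈ e i, w i) :=
            sum_le_sum (fun v _ => loss h hα.le hα1 hδ hθ v)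
        _ = (1 / θ ^ 2 + 1 / θ) * (Cc K * δ) * ∑ v ∈ VV, ∑ i ∈ E with v ∈ e i, w i := by
            rw [mul_sum]
            apply sum_congr rfl
            intro v _
            ring
        _ ≤ (1 / θ ^ 2 + 1 / θ) * (Cc K * δ) * (K * ∑ i ∈ E, w i) := by
            by_cases hE : E.Nonempty
            · obtain ⟨i0, hi0⟩ := hE
              have hδ0 : 0 ≤ δ := le_trans (h.nonneg i0 hi0) (h.small i0 hi0)
              apply mul_le_mul_of_nonneg_left hWs
              have := Cc_nonneg K
              positivity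
            · rw [not_nonempty_iff_eq_empty] at hE
              have hV0 : VV = ∅ := by rw [hVV, hE, biUnion_empty]
              rw [hV0, hE]
              simp
        _ = _ := by ring
    rw [h2]
    have h4 : 0 ≤ c / (1 + θ) := div_nonneg hc h1θ.le
    have h5 := mul_le_mul_of_nonneg_left h3 h4
    have h6 : (α * (1 - α * K) + c * ((1 - α) - (1 / θ ^ 2 + 1 / θ) * (Cc K * δ * K)) / (1 + θ)) *
      ∑ i ∈ E, w i = α * (1 - α * K) * ∑ i ∈ E, w i + (c / (1 + θ) * ((1 - α) * ∑ i ∈ E, w i)
        - c / (1 + θ) * ((1 / θ ^ 2 + 1 / θ) * (Cc K * δ * K) * ∑ i ∈ E, w i)) := by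
      ring
    rw [h6, mul_sub]
    linarith
  obtain ⟨M2, hM2, hM2d, hM2c⟩ := IH _ _ (good_new h hα.le hα1 hθ S)
  have hM2E : M2 ⊆ Es e E S := hM2.trans (Eg_subset θ S)
  have hcross : ∀ i ∈ S, ∀ j ∈ M2, Disjoint (e i) (e j) := by
    intro i hi j hj
    have h1 := hM2E hj
    unfold Es at h1
    rw [mem_filter] at h1
    have h2 := disjoint_left.mp h1.2 hi
    rw [mem_hit] at h2
    by_contra hcon
    exact h2 ⟨hS hi, hcon⟩
  refine ⟨Mm e E S ∪ M2, ?_, ?_, ?_⟩
  · apply union_subset
    · exact (filter_subset _ _).trans hS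
    · exact hM2E.trans (Es_subset S)
  · intro i hi j hj hij
    rw [mem_union] at hi hj
    rcases hi with hi | hi <;> rcases hj with hj | hj
    · unfold Mm at hi hj
      rw [mem_filter] at hi hj
      by_contra hcon
      have h1 : j ∈ (hit e E (e i)).erase i := by
        rw [mem_erase, mem_hit]
        exact ⟨fun hx => hij hx.symm, hS hj.1, fun hx => hcon hx.symm⟩
      exact disjoint_left.mp hi.2 hj.1 h1
    · unfold Mm at hi
      exact hcross i (mem_filter.mp hi).1 j hj
    · unfold Mm at hj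
      exact (hcross j (mem_filter.mp hj).1 i hi).symm
    · exact hM2d i hi j hj hij
  · have hdisj : Disjoint (Mm e E S) M2 := by
      rw [disjoint_left]
      intro i hi hi2
      unfold Mm at hi
      have h1 := hcross i (mem_filter.mp hi).1 i hi2
      rw [disjoint_self_iff_empty] at h1
      have h2 := h.nonempty i (Es_subset S (hM2E hi2))
      rw [h1] at h2
      exact not_nonempty_empty h2
    rw [card_union_of_disjoint hdisj]
    push_cast
    refine hEF.trans (hSF.trans ?_)
    rw [hF]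
    have h1 := sum_Eg h hα.le hα1 (θ := θ) S
    rw [← sum_div] at hM2c
    have h2 : 0 ≤ c / (1 + θ) := div_nonneg hc h1θ.le
    have h3 := mul_le_mul_of_nonneg_left h1 h2
    have h4 : c * ((∑ i ∈ Eg e E w α θ S, nw e E w α i) / (1 + θ)) =
        c / (1 + θ) * ∑ i ∈ Eg e E w α θ S, nw e E w α i := by ring
    rw [h4] at hM2c
    show ((Mm e E S).card : ℝ) +
      c / (1 + θ) * ((∑ i ∈ E, nw e E w α i * ind e E (e i) S) -
      (∑ v ∈ VV, if 1 + θ < X e E w α v S then X e E w α v S else 0)) ≤ _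
    linarith

end Pool.Agent.Lib.MP_21e00f_co
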